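import Mathlib

/-!
Seven points in a normed plane: the rule satisfied by the coordinates of a counterexample in a
frame given by a parallelogram of largest area.
-/

set_option autoImplicit false

namespace Run7.h790.SD

/-- the determinant of the differences `p i - p j` and `p k - p l` -/
def om {ι : Type} (x y : ι → ℝ) (i j k l : ι) : ℝ :=
  (x i - x j) * (y k - y l) - (y i - y j) * (x k - x l)

/-- A difference `p k - p l` of different points in the cone of two differences is not in the
half of their convex hull with `0`. -/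
def Rule {ι : Type} (x y : ι → ℝ) : Prop :=
  ∀ k l i j i' j' : ι, k ≠ l → 0 ≤ om x y i j k l → 0 ≤ om x y k l i' j' →
    0 < om x y i j i' j' → om x y i j i' j' < 2 * (om x y k l i' j' + om x y i j k l)

variable {ι : Type} {x y : ι → ℝ}

theorem Rule.le (H : Rule x y) (k l i j i' j' : ι) (hkl : k ≠ l) (h1 : 0 ≤ om x y i j k l)
    (h2 : 0 ≤ om x y k l i' j') (h3 : 0 ≤ om x y i j i' j') :
    om x y i j i' j' ≤ 2 * (om x y k l i' j' + om x y i j k l) := by
  rcases h3.eq_or_lt with h | h
  · rw [← h]; linarith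
  · exact (H k l i j i' j' hkl h1 h2 h).le

theorem Rule.negY (H : Rule x y) : Rule x (fun i => 1 - y i) := by
  have e : ∀ i j k l : ι, om x (fun i => 1 - y i) i j k l = om x y k l i j := by
    intro i j k l; simp only [om]; ring
  intro k l i j i' j' hkl h1 h2 h3
  rw [e] at h1 h2 h3
  rw [e, e, e]
  have := H k l i' j' i j hkl h2 h1 h3
  linarith

theorem Rule.negX (H : Rule x y) : Rule (fun i => 1 - x i) y := by
  have e : ∀ i j k l : ι, om (fun i => 1 - x i) y i j k l = om x y k l i j := by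
    intro i j k l; simp only [om]; ring
  intro k l i j i' j' hkl h1 h2 h3
  rw [e] at h1 h2 h3
  rw [e, e, e]
  have := H k l i' j' i j hkl h2 h1 h3
  linarith

theorem Rule.swap (H : Rule x y) : Rule y x := by
  have e : ∀ i j k l : ι, om y x i j k l = om x y k l i j := by
    intro i j k l; simp only [om]; ring
  intro k l i j i' j' hkl h1 h2 h3
  rw [e] at h1 h2 h3
  rw [e, e, e]
  have := H k l i' j' i j hkl h2 h1 h3
  linarith

/-- the frame: `p R - p L = (1, 0)` and `p U - p D = (0, 1)` -/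
structure Frame (x y : ι → ℝ) (L R D U : ι) : Prop where
  xRL : x R - x L = 1
  yRL : y R = y L
  xUD : x U = x D
  yUD : y U - y D = 1

variable {L R D U : ι}

theorem rectInc (H : Rule x y) (F : Frame x y L R D U) {k l i j : ι} (hkl : k ≠ l)
    (h1 : 0 ≤ x k - x l) (h2 : 0 ≤ y k - y l) (h3 : 2 * (x k - x l) ≤ x i - x j)
    (h4 : 2 * (y k - y l) ≤ y i - y j) (h5 : x i - x j ≤ 1) (h6 : y i - y j ≤ 1) : False := by
  obtain ⟨f1, f2, f3, f4⟩ := F
  have e1 : ∀ c d : ι, om x y R L c d = y c - y d := by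
    intro c d; simp only [om, f1, f2]; ring
  have e2 : ∀ c d : ι, om x y c d U D = x c - x d := by
    intro c d; simp only [om, f4, f3]; ring
  generalize ha : x k - x l = a at *
  generalize hb : y k - y l = b at *
  generalize hX : x i - x j = X at *
  generalize hY : y i - y j = Y at *
  have e3 : om x y k l i j = a * Y - b * X := by simp only [om, ha, hb, hX, hY]
  have e4 : om x y i j k l = X * b - Y * a := by simp only [om, ha, hb, hX, hY]
  rcases (show (0:ℝ) ≤ Y by linarith).eq_or_lt with h0 | h0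
  · have := H k l R L U D hkl (by rw [e1, hb]; exact h2) (by rw [e2, ha]; exact h1)
      (by rw [e2, f1]; norm_num)
    rw [e2, e2, e1, f1, ha, hb] at this
    linarith
  · rcases le_total 0 (a * Y - b * X) with h | h
    · have := H k l R L i j hkl (by rw [e1, hb]; exact h2) (by rw [e3]; exact h)
        (by rw [e1, hY]; exact h0)
      rw [e1, e1, e3, hY, hb] at this
      nlinarith [mul_nonneg (show 0 ≤ X - 2 * a by linarith) h0.le,
        mul_nonneg (show 0 ≤ Y - 2 * b by linarith) (show 0 ≤ 1 - X by linarith)]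
    · have hX0 : 0 < X := by
        rcases (show (0:ℝ) ≤ X by linarith).eq_or_lt with h' | h'
        · exfalso
          have := H k l R L U D hkl (by rw [e1, hb]; exact h2) (by rw [e2, ha]; exact h1)
            (by rw [e2, f1]; norm_num)
          rw [e2, e2, e1, f1, ha, hb] at this
          linarith
        · exact h'
      have := H k l i j U D hkl (by rw [e4]; linarith) (by rw [e2, ha]; exact h1)
        (by rw [e2, hX]; exact hX0)
      rw [e2, e2, e4, hX, ha] at this
      nlinarith [mul_nonneg (show 0 ≤ Y - 2 * b by linarith) hX0.le,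
        mul_nonneg (show 0 ≤ X - 2 * a by linarith) (show 0 ≤ 1 - Y by linarith)]

theorem rectDec (H : Rule x y) (F : Frame x y L R D U) {k l i j : ι} (hkl : k ≠ l)
    (h1 : 0 ≤ x k - x l) (h2 : 0 ≤ y l - y k) (h3 : 2 * (x k - x l) ≤ x i - x j)
    (h4 : 2 * (y l - y k) ≤ y j - y i) (h5 : x i - x j ≤ 1) (h6 : y j - y i ≤ 1) : False := by
  refine rectInc (L := L) (R := R) (D := U) (U := D) H.negY ⟨F.xRL, ?_, F.xUD.symm, ?_⟩
    (k := k) (l := l) (i := i) (j := j) hkl h1 ?_ h3 ?_ h5 ?_
  · simp only [F.yRL]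
  · have := F.yUD; linarith
  all_goals linarith

theorem midInc (H : Rule x y) (F : Frame x y L R D U) {a b c : ι} (hab : b ≠ a) (hbc : c ≠ b)
    (h1 : x a ≤ x b) (h2 : x b ≤ x c) (h3 : y a ≤ y b) (h4 : y b ≤ y c) (h5 : x c - x a ≤ 1)
    (h6 : y c - y a ≤ 1) :
    (0 < 2 * x b - x a - x c ∧ 0 < -(2 * y b - y a - y c)) ∨
      (0 < -(2 * x b - x a - x c) ∧ 0 < 2 * y b - y a - y c) := by
  have s1 : ¬ (2 * x b - x a - x c ≤ 0 ∧ 2 * y b - y a - y c ≤ 0) := fun h =>
    rectInc H F (k := b) (l := a) (i := c) (j := a) hab (by linarith) (by linarith)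
      (by linarith [h.1]) (by linarith [h.2]) h5 h6
  have s2 : ¬ (0 ≤ 2 * x b - x a - x c ∧ 0 ≤ 2 * y b - y a - y c) := fun h =>
    rectInc H F (k := c) (l := b) (i := c) (j := a) hbc (by linarith) (by linarith)
      (by linarith [h.1]) (by linarith [h.2]) h5 h6
  rcases lt_or_ge 0 (2 * x b - x a - x c) with h | h
  · exact Or.inl ⟨h, by by_contra h'; exact s2 ⟨h.le, by linarith⟩⟩
  · have h7 : 0 < 2 * y b - y a - y c := by by_contra h'; exact s1 ⟨h, by linarith⟩
    exact Or.inr ⟨by by_contra h'; exact s2 ⟨by linarith, h7.le⟩, h7⟩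

theorem midDec (H : Rule x y) (F : Frame x y L R D U) {a b c : ι} (hab : b ≠ a) (hbc : c ≠ b)
    (h1 : x a ≤ x b) (h2 : x b ≤ x c) (h3 : y b ≤ y a) (h4 : y c ≤ y b) (h5 : x c - x a ≤ 1)
    (h6 : y a - y c ≤ 1) :
    (0 < 2 * x b - x a - x c ∧ 0 < 2 * y b - y a - y c) ∨
      (0 < -(2 * x b - x a - x c) ∧ 0 < -(2 * y b - y a - y c)) := by
  have s1 : ¬ (2 * x b - x a - x c ≤ 0 ∧ 0 ≤ 2 * y b - y a - y c) := fun h =>
    rectDec H F (k := b) (l := a) (i := c) (j := a) hab (by linarith) (by linarith)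
      (by linarith [h.1]) (by linarith [h.2]) h5 h6
  have s2 : ¬ (0 ≤ 2 * x b - x a - x c ∧ 2 * y b - y a - y c ≤ 0) := fun h =>
    rectDec H F (k := c) (l := b) (i := c) (j := a) hbc (by linarith) (by linarith)
      (by linarith [h.1]) (by linarith [h.2]) h5 h6
  rcases lt_or_ge 0 (2 * x b - x a - x c) with h | h
  · exact Or.inl ⟨h, by by_contra h'; exact s2 ⟨h.le, by linarith⟩⟩
  · have h7 : 0 < -(2 * y b - y a - y c) := by by_contra h'; exact s1 ⟨h, by linarith⟩
    exact Or.inr ⟨by by_contra h'; exact s2 ⟨by linarith, by linarith⟩, h7⟩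

theorem tr0 {a b c d e f : ℝ} (hu : 0 ≤ a + b) (hv : 0 < c + d) (hw : 0 ≤ e + f)
    (h1 : 0 ≤ a * d - b * c) (h2 : 0 ≤ c * f - d * e) : 0 ≤ a * f - b * e := by
  have h : (a * f - b * e) * (c + d) = (a * d - b * c) * (e + f) + (c * f - d * e) * (a + b) := by
    ring
  have h' : 0 ≤ (a * f - b * e) * (c + d) := by rw [h]; positivity
  exact nonneg_of_mul_nonneg_left h' hv

theorem tr1 {a b c d e f : ℝ} (hu : 0 ≤ b - a) (hv : 0 < d - c) (hw : 0 ≤ f - e)
    (h1 : 0 ≤ a * d - b * c) (h2 : 0 ≤ c * f - d * e) : 0 ≤ a * f - b * e := by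
  have h : (a * f - b * e) * (d - c) = (a * d - b * c) * (f - e) + (c * f - d * e) * (b - a) := by
    ring
  have h' : 0 ≤ (a * f - b * e) * (d - c) := by rw [h]; positivity
  exact nonneg_of_mul_nonneg_left h' hv

/-- labels of the seven points -/
inductive Lb | L | R | D | U | A | B | C
  deriving DecidableEq

/-- the first coordinates -/
def px (xi a b c : ℝ) : Lb → ℝ
  | .L => 0 | .R => 1 | .D => xi | .U => xi | .A => a | .B => b | .C => c

/-- the second coordinates -/
def py (eta a b c : ℝ) : Lb → ℝ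
  | .L => eta | .R => eta | .D => 0 | .U => 1 | .A => a | .B => b | .C => c

theorem frame_p (xi xA xB xC eta yA yB yC : ℝ) :
    Frame (px xi xA xB xC) (py eta yA yB yC) Lb.L Lb.R Lb.D Lb.U :=
  ⟨by simp [px], rfl, rfl, by simp [py]⟩

end Run7.h790.SD
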