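import Pool.Agent.Run7.h790.SD.Basic

/-! Seven points in a normed plane, case 21a (generated proof: case distinctions on the order of
directions, each case closed by a linear combination). -/

set_option autoImplicit false
set_option linter.all false
set_option maxHeartbeats 4000000

namespace Run7.h790.SD

theorem t21a (xi eta xA xB xC yA yB yC : ℝ)
    (H : Rule (px xi xA xB xC) (py eta yA yB yC))
    (gx0 : 0 < xi - 0)
    (gx1 : 0 < xA - xi)
    (gx2 : 0 < xC - xA)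
    (gx3' : 0 ≤ xB - xC)
    (gx4' : 0 ≤ 1 - xB)
    (gy0' : 0 ≤ yC - 0)
    (gy1 : 0 < eta - yC)
    (gy2 : 0 < yA - eta)
    (gy3 : 0 < yB - yA)
    (gy4' : 0 ≤ 1 - yB)
    (hx' : 0 ≤ 1 / 2 - xi) (hy' : 0 ≤ 1 / 2 - eta) (e' : 0 ≤ eta - xi) : False := by
  have gx0' := gx0.le
  have gx1' := gx1.le
  have gx2' := gx2.le
  have gy1' := gy1.le
  have gy2' := gy2.le
  have gy3' := gy3.le
  have F := frame_p xi xA xB xC eta yA yB yC
  have s_0_0_2 : 0 < (1 - 0) * (yA - eta) - (eta - eta) * (xA - 0) := by linarith only [gy2]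
  have s_0_0_6 : 0 < (1 - 0) * (yB - 0) - (eta - eta) * (xB - xi) := by linarith only [gy3, gy0', gy2, gy1]
  have b_0_0_7 : 0 ≤ (1 - 0) * (yC - 0) - (eta - eta) * (xC - xi) := by linarith only [gy0']
  have s_0_0_8 : 0 < (1 - 0) * (yB - yA) - (eta - eta) * (xB - xA) := by linarith only [gy3]
  have s_0_0_9 : 0 < (1 - 0) * (eta - yC) - (eta - eta) * (1 - xC) := by linarith only [gy1]
  have s_0_0_11 : 0 < (1 - 0) * (1 - 0) - (eta - eta) * (xi - xi) := by linarith only [gx1, gx2, gx4', gx3', gx0]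
  have s_0_2_11 : 0 < (xA - 0) * (1 - 0) - (yA - eta) * (xi - xi) := by linarith only [gx1, gx0]
  have s_0_6_11 : 0 < (xB - xi) * (1 - 0) - (yB - 0) * (xi - xi) := by linarith only [gx1, gx2, gx3']
  have s_0_8_11 : 0 < (xB - xA) * (1 - 0) - (yB - yA) * (xi - xi) := by linarith only [mul_pos gx2 gy1, mul_pos gx2 gy3, mul_pos gx2 gy2, mul_nonneg gx2' gy4', mul_nonneg gx2' gy0', gx3']
  have b_0_9_10 : 0 ≤ (1 - xC) * (yB - yC) - (eta - yC) * (xB - xC) := by linarith only [mul_nonneg gx3' gy2', mul_nonneg gx4' gy2', mul_nonneg gx4' gy3', mul_nonneg gx4' gy1', mul_nonneg gx3' gy3']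
  have b_0_9_11 : 0 ≤ (1 - xC) * (1 - 0) - (eta - yC) * (xi - xi) := by linarith only [gx4', gx3']
  have s_1_0_1 : 0 < (xi - xi) * (1 - eta) - (1 - 0) * (xi - 1) := by linarith only [mul_pos gx1 gy1, mul_pos gx1 gy3, mul_pos gx2 gy1, mul_pos gx1 gy2, mul_pos gx2 gy3, mul_pos gx2 gy2, mul_nonneg gx2' gy4', mul_nonneg gx1' gy0', mul_nonneg gx2' gy0', gx4', gx3', mul_nonneg gx1' gy4']
  have b_1_0_3 : 0 ≤ (xi - xi) * (yB - eta) - (1 - 0) * (xB - 1) := by linarith only [gx4']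
  have s_1_0_4 : 0 < (xi - xi) * (eta - 0) - (1 - 0) * (0 - xi) := by linarith only [gx0]
  have s_1_0_5 : 0 < (xi - xi) * (1 - yA) - (1 - 0) * (xi - xA) := by linarith only [gx1]
  have s_1_0_6 : 0 < (xi - xi) * (1 - yB) - (1 - 0) * (xi - xB) := by linarith only [gx1, gx2, gx3']
  have s_1_0_8 : 0 < (xi - xi) * (1 - yC) - (1 - 0) * (xi - xC) := by linarith only [gx1, gx2]
  have s_1_0_9 : 0 < (xi - xi) * (yA - yC) - (1 - 0) * (xA - xC) := by linarith only [gx2]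
  have s_1_0_10 : 0 < (xi - xi) * (eta - eta) - (1 - 0) * (0 - 1) := by linarith only [gx1, gx2, gx4', gx3', gx0]
  have s_1_3_10 : 0 < (xB - 1) * (eta - eta) - (yB - eta) * (0 - 1) := by linarith only [gy3, gy2]
  have b_1_4_1 : 0 ≤ (0 - xi) * (1 - eta) - (eta - 0) * (xi - 1) := by linarith only [e']
  have s_1_5_6 : 0 < (xi - xA) * (1 - yB) - (1 - yA) * (xi - xB) := by linarith only [mul_nonneg gx3' gy4', mul_pos gx1 gy3, mul_pos gx2 gy3, mul_nonneg gx2' gy4', mul_nonneg gx3' gy3']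
  have s_1_5_10 : 0 < (xi - xA) * (eta - eta) - (1 - yA) * (0 - 1) := by linarith only [mul_pos gx0 gy3, mul_pos gx1 gy3, gy4', mul_nonneg gx4' gy3', mul_pos gx2 gy3, mul_nonneg gx3' gy3']
  have s_1_8_1 : 0 < (xi - xC) * (1 - eta) - (1 - yC) * (xi - 1) := by linarith only [mul_pos gx1 gy1, mul_pos gx2 gy1, mul_nonneg gx3' gy1', mul_nonneg gx3' hy', mul_nonneg gx4' hy', mul_nonneg gx4' gy1', gx4', gx3']
  have s_1_9_10 : 0 < (xA - xC) * (eta - eta) - (yA - yC) * (0 - 1) := by linarith only [gy2, gy1]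
  rcases le_total 0 ((xi - 1) * (yB - eta) - (1 - eta) * (xB - 1)) with o_1_1_3 | h_1_1_3
  · skip
    have d_1_4_3_0 : 0 ≤ (0 - xi) * (yB - eta) - (eta - 0) * (xB - 1) := tr1 (by linarith) (by linarith) (by linarith) (b_1_4_1) (o_1_1_3)
    have r0 : (1 - 0) * (1 - 0) - (eta - eta) * (xi - xi) < 2 * ((xA - 0) * (1 - 0) - (yA - eta) * (xi - xi) + ((1 - 0) * (yA - eta) - (eta - eta) * (xA - 0))) := H Lb.A Lb.L Lb.R Lb.L Lb.U Lb.D (by decide) (s_0_0_2.le) (s_0_2_11.le) (s_0_0_11)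
    have r1 : (1 - 0) * (1 - 0) - (eta - eta) * (xi - xi) < 2 * ((xB - xA) * (1 - 0) - (yB - yA) * (xi - xi) + ((1 - 0) * (yB - yA) - (eta - eta) * (xB - xA))) := H Lb.B Lb.A Lb.R Lb.L Lb.U Lb.D (by decide) (s_0_0_8.le) (s_0_8_11.le) (s_0_0_11)
    linarith only [d_1_4_3_0, r0, o_1_1_3, r1]
  · have o_1_3_1 : 0 ≤ (xB - 1) * (1 - eta) - (yB - eta) * (xi - 1) := by linarith only [h_1_1_3]
    have m_DCB : (0 < 2 * xC - xi - xB ∧ 0 < -(2 * yC - 0 - yB)) ∨ (0 < -(2 * xC - xi - xB) ∧ 0 < 2 * yC - 0 - yB) := midInc H F (a := Lb.D) (b := Lb.C) (c := Lb.B) (by decide) (by decide) (show xi ≤ xC by linarith) (show xC ≤ xB by linarith) (show 0 ≤ yC by linarith) (show yC ≤ yB by linarith) (show xB - xi ≤ 1 by linarith) (show yB - 0 ≤ 1 by linarith)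
    rcases m_DCB with ⟨mxDCBH, myDCBH⟩ | ⟨mxDCBV, myDCBV⟩
    · have mxDCBH' := mxDCBH.le
      have myDCBH' := myDCBH.le
      rcases le_total 0 ((xB - xi) * (yC - 0) - (yB - 0) * (xC - xi)) with o_0_6_7 | h_0_6_7
      · skip
        linarith only [mul_nonneg gx3' myDCBH', o_0_6_7, mul_pos mxDCBH gy1, mul_pos mxDCBH gy2, mul_pos mxDCBH gy3]
      · have o_0_7_6 : 0 ≤ (xC - xi) * (yB - 0) - (yC - 0) * (xB - xi) := by linarith only [h_0_6_7]
        rcases le_total 0 ((xA - 0) * (yB - 0) - (yA - eta) * (xB - xi)) with o_0_2_6 | h_0_2_6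
        · skip
          have m_DAB : (0 < 2 * xA - xi - xB ∧ 0 < -(2 * yA - 0 - yB)) ∨ (0 < -(2 * xA - xi - xB) ∧ 0 < 2 * yA - 0 - yB) := midInc H F (a := Lb.D) (b := Lb.A) (c := Lb.B) (by decide) (by decide) (show xi ≤ xA by linarith) (show xA ≤ xB by linarith) (show 0 ≤ yA by linarith) (show yA ≤ yB by linarith) (show xB - xi ≤ 1 by linarith) (show yB - 0 ≤ 1 by linarith)
          rcases m_DAB with ⟨mxDABH, myDABH⟩ | ⟨mxDABV, myDABV⟩
          · have mxDABH' := mxDABH.le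
            have myDABH' := myDABH.le
            have m_UAC : (0 < 2 * xA - xi - xC ∧ 0 < 2 * yA - 1 - yC) ∨ (0 < -(2 * xA - xi - xC) ∧ 0 < -(2 * yA - 1 - yC)) := midDec H F (a := Lb.U) (b := Lb.A) (c := Lb.C) (by decide) (by decide) (show xi ≤ xA by linarith) (show xA ≤ xC by linarith) (show yA ≤ 1 by linarith) (show yC ≤ yA by linarith) (show xC - xi ≤ 1 by linarith) (show 1 - yC ≤ 1 by linarith)
            rcases m_UAC with ⟨mxUACH, myUACH⟩ | ⟨mxUACV, myUACV⟩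
            · have mxUACH' := mxUACH.le
              have myUACH' := myUACH.le
              linarith only [mul_nonneg gx1' gy4', mul_pos gx2 myUACH, mul_nonneg gx1' gy0', mul_pos mxUACH myDABH, mul_pos gx2 myDABH, mul_pos mxUACH myUACH]
            · have mxUACV' := mxUACV.le
              have myUACV' := myUACV.le
              linarith only [mxUACV, mxDABH, gx3']
          · have mxDABV' := mxDABV.le
            have myDABV' := myDABV.le
            rcases le_total 0 ((xB - xi) * (yB - yA) - (yB - 0) * (xB - xA)) with o_0_6_8 | h_0_6_8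
            · skip
              linarith only [o_0_6_8, mul_pos mxDABV myDABV, mul_pos mxDABV gy3, mul_pos gx1 myDABV]
            · have o_0_8_6 : 0 ≤ (xB - xA) * (yB - 0) - (yB - yA) * (xB - xi) := by linarith only [h_0_6_8]
              rcases le_total 0 ((xB - xi) * (eta - yC) - (yB - 0) * (1 - xC)) with o_0_6_9 | h_0_6_9
              · skip
                rcases le_total 0 ((xB - 1) * (1 - yC) - (yB - eta) * (xi - xC)) with o_1_3_8 | h_1_3_8
                · skip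
                  have d_0_6_10_0 : 0 ≤ (xB - xi) * (yB - yC) - (yB - 0) * (xB - xC) := tr0 (by linarith) (by linarith) (by linarith) (o_0_6_9) (b_0_9_10)
                  have r0 : (xB - xi) * (yB - yC) - (yB - 0) * (xB - xC) ≤ 2 * ((1 - xC) * (yB - yC) - (eta - yC) * (xB - xC) + ((xB - xi) * (eta - yC) - (yB - 0) * (1 - xC))) := H.le Lb.R Lb.C Lb.B Lb.D Lb.B Lb.C (by decide) (o_0_6_9) (b_0_9_10) (d_0_6_10_0)
                  have r1 : (xi - xi) * (1 - yC) - (1 - 0) * (xi - xC) < 2 * ((xB - 1) * (1 - yC) - (yB - eta) * (xi - xC) + ((xi - xi) * (yB - eta) - (1 - 0) * (xB - 1))) := H Lb.B Lb.R Lb.U Lb.D Lb.U Lb.C (by decide) (b_1_0_3) (o_1_3_8) (s_1_0_8)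
                  linarith only [mul_nonneg gx1' gy0', mul_nonneg gx2' gy4', mul_nonneg gx2' gy0', mul_nonneg gx1' gy4', r0, r1, mul_nonneg gx3' gy0']
                · have o_1_8_3 : 0 ≤ (xi - xC) * (yB - eta) - (1 - yC) * (xB - 1) := by linarith only [h_1_3_8]
                  have r0 : (xi - xC) * (1 - eta) - (1 - yC) * (xi - 1) < 2 * ((xB - 1) * (1 - eta) - (yB - eta) * (xi - 1) + ((xi - xC) * (yB - eta) - (1 - yC) * (xB - 1))) := H Lb.B Lb.R Lb.U Lb.C Lb.U Lb.R (by decide) (o_1_8_3) (o_1_3_1) (s_1_8_1)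
                  have r1 : (xB - xi) * (1 - 0) - (yB - 0) * (xi - xi) < 2 * ((1 - xC) * (1 - 0) - (eta - yC) * (xi - xi) + ((xB - xi) * (eta - yC) - (yB - 0) * (1 - xC))) := H Lb.R Lb.C Lb.B Lb.D Lb.U Lb.D (by decide) (o_0_6_9) (b_0_9_11) (s_0_6_11)
                  linarith only [o_0_6_9, mul_nonneg gx2' hy', mul_nonneg hx' gy0', mul_nonneg gx1' hy', gx3', r0, gy0', r1]
              · have o_0_9_6 : 0 ≤ (1 - xC) * (yB - 0) - (eta - yC) * (xB - xi) := by linarith only [h_0_6_9]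
                have r0 : (1 - 0) * (yB - 0) - (eta - eta) * (xB - xi) < 2 * ((xA - 0) * (yB - 0) - (yA - eta) * (xB - xi) + ((1 - 0) * (yA - eta) - (eta - eta) * (xA - 0))) := H Lb.A Lb.L Lb.R Lb.L Lb.B Lb.D (by decide) (s_0_0_2.le) (o_0_2_6) (s_0_0_6)
                have r1 : (1 - 0) * (yB - 0) - (eta - eta) * (xB - xi) < 2 * ((1 - xC) * (yB - 0) - (eta - yC) * (xB - xi) + ((1 - 0) * (eta - yC) - (eta - eta) * (1 - xC))) := H Lb.R Lb.C Lb.R Lb.L Lb.B Lb.D (by decide) (s_0_0_9.le) (o_0_9_6) (s_0_0_6)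
                have r2 : (1 - 0) * (yB - 0) - (eta - eta) * (xB - xi) < 2 * ((xC - xi) * (yB - 0) - (yC - 0) * (xB - xi) + ((1 - 0) * (yC - 0) - (eta - eta) * (xC - xi))) := H Lb.C Lb.D Lb.R Lb.L Lb.B Lb.D (by decide) (b_0_0_7) (o_0_7_6) (s_0_0_6)
                have r3 : (1 - 0) * (yB - 0) - (eta - eta) * (xB - xi) < 2 * ((xB - xA) * (yB - 0) - (yB - yA) * (xB - xi) + ((1 - 0) * (yB - yA) - (eta - eta) * (xB - xA))) := H Lb.B Lb.A Lb.R Lb.L Lb.B Lb.D (by decide) (s_0_0_8.le) (o_0_8_6) (s_0_0_6)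
                linarith only [r0, r1, r2, r3]
        · have o_0_6_2 : 0 ≤ (xB - xi) * (yA - eta) - (yB - 0) * (xA - 0) := by linarith only [h_0_2_6]
          have r0 : (xi - xi) * (1 - eta) - (1 - 0) * (xi - 1) < 2 * ((0 - xi) * (1 - eta) - (eta - 0) * (xi - 1) + ((xi - xi) * (eta - 0) - (1 - 0) * (0 - xi))) := H Lb.L Lb.D Lb.U Lb.D Lb.U Lb.R (by decide) (s_1_0_4.le) (b_1_4_1) (s_1_0_1)
          have r1 : (xi - xi) * (1 - yB) - (1 - 0) * (xi - xB) < 2 * ((xi - xA) * (1 - yB) - (1 - yA) * (xi - xB) + ((xi - xi) * (1 - yA) - (1 - 0) * (xi - xA))) := H Lb.U Lb.A Lb.U Lb.D Lb.U Lb.B (by decide) (s_1_0_5.le) (s_1_5_6.le) (s_1_0_6)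
          linarith only [r0, mul_pos gx0 gy3, r1, o_0_6_2, mul_nonneg gx4' hy', mul_pos gx0 gy2]
    · have mxDCBV' := mxDCBV.le
      have myDCBV' := myDCBV.le
      have r0 : (xi - xi) * (eta - eta) - (1 - 0) * (0 - 1) < 2 * ((xi - xA) * (eta - eta) - (1 - yA) * (0 - 1) + ((xi - xi) * (1 - yA) - (1 - 0) * (xi - xA))) := H Lb.U Lb.A Lb.U Lb.D Lb.L Lb.R (by decide) (s_1_0_5.le) (s_1_5_10.le) (s_1_0_10)
      have r1 : (xi - xi) * (1 - eta) - (1 - 0) * (xi - 1) < 2 * ((0 - xi) * (1 - eta) - (eta - 0) * (xi - 1) + ((xi - xi) * (eta - 0) - (1 - 0) * (0 - xi))) := H Lb.L Lb.D Lb.U Lb.D Lb.U Lb.R (by decide) (s_1_0_4.le) (b_1_4_1) (s_1_0_1)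
      have r2 : (xi - xi) * (eta - eta) - (1 - 0) * (0 - 1) < 2 * ((xA - xC) * (eta - eta) - (yA - yC) * (0 - 1) + ((xi - xi) * (yA - yC) - (1 - 0) * (xA - xC))) := H Lb.A Lb.C Lb.U Lb.D Lb.L Lb.R (by decide) (s_1_0_9.le) (s_1_9_10.le) (s_1_0_10)
      have r3 : (xi - xi) * (eta - eta) - (1 - 0) * (0 - 1) < 2 * ((xB - 1) * (eta - eta) - (yB - eta) * (0 - 1) + ((xi - xi) * (yB - eta) - (1 - 0) * (xB - 1))) := H Lb.B Lb.R Lb.U Lb.D Lb.L Lb.R (by decide) (b_1_0_3) (s_1_3_10.le) (s_1_0_10)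
      linarith only [mul_pos gx0 gy1, r0, mul_pos gx0 gy3, mul_pos gx0 gy2, myDCBV, mxDCBV, r1, r2, mul_pos gx0 myDCBV, r3, mul_nonneg gx0' gy4']

end Run7.h790.SD
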