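import Pool.Agent.Run7.h790.SD.Basic

/-! Seven points in a normed plane, case 21b (generated proof: case distinctions on the order of
directions, each case closed by a linear combination). -/

set_option autoImplicit false
set_option linter.all false
set_option maxHeartbeats 4000000

namespace Run7.h790.SD

theorem t21b (xi eta xA xB xC yA yB yC : ℝ)
    (H : Rule (px xi xA xB xC) (py eta yA yB yC))
    (gx0 : 0 < xi - 0)
    (gx1 : 0 < xA - xi)
    (gx2 : 0 < xB - xA)
    (gx3' : 0 ≤ xC - xB)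
    (gx4' : 0 ≤ 1 - xC)
    (gy0' : 0 ≤ yC - 0)
    (gy1 : 0 < eta - yC)
    (gy2 : 0 < yA - eta)
    (gy3 : 0 < yB - yA)
    (gy4' : 0 ≤ 1 - yB)
    (hx' : 0 ≤ 1 / 2 - xi) (hy' : 0 ≤ 1 / 2 - eta) (e' : 0 ≤ eta - xi) : False := by
  have gx0' := gx0.le
  have gx1' := gx1.le
  have gx2' := gx2.le
  have gy1' := gy1.le
  have gy2' := gy2.le
  have gy3' := gy3.le
  have F := frame_p xi xA xB xC eta yA yB yC
  have s_0_0_1 : 0 < (1 - 0) * (1 - eta) - (eta - eta) * (xi - 0) := by linarith only [gy3, gy2, gy4']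
  have s_0_0_2 : 0 < (1 - 0) * (yA - eta) - (eta - eta) * (xA - 0) := by linarith only [gy2]
  have s_0_0_4 : 0 < (1 - 0) * (eta - 0) - (eta - eta) * (1 - xi) := by linarith only [mul_pos gx0 gy1, gy0', mul_pos gx1 gy1, mul_pos gx2 gy1, mul_nonneg gx3' gy1', mul_nonneg gx4' gy1']
  have s_0_0_5 : 0 < (1 - 0) * (yA - 0) - (eta - eta) * (xA - xi) := by linarith only [gy0', gy1, gy2]
  have s_0_0_6 : 0 < (1 - 0) * (yB - 0) - (eta - eta) * (xB - xi) := by linarith only [gy3, gy0', gy1, gy2]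
  have b_0_0_7 : 0 ≤ (1 - 0) * (yC - 0) - (eta - eta) * (xC - xi) := by linarith only [gy0']
  have s_0_0_8 : 0 < (1 - 0) * (yB - yA) - (eta - eta) * (xB - xA) := by linarith only [gy3]
  have s_0_0_9 : 0 < (1 - 0) * (eta - yC) - (eta - eta) * (1 - xC) := by linarith only [gy1]
  have s_0_0_10 : 0 < (1 - 0) * (1 - 0) - (eta - eta) * (xi - xi) := by linarith only [gx1, gx2, gx4', gx3', gx0]
  have s_0_2_10 : 0 < (xA - 0) * (1 - 0) - (yA - eta) * (xi - xi) := by linarith only [gx1, gx0]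
  have b_0_4_1 : 0 ≤ (1 - xi) * (1 - eta) - (eta - 0) * (xi - 0) := by linarith only [hy', hx']
  have s_0_4_6 : 0 < (1 - xi) * (yB - 0) - (eta - 0) * (xB - xi) := by linarith only [mul_nonneg gx4' gy3', mul_nonneg gx3' gy1', mul_pos gx1 gy3, mul_pos gx1 gy2, mul_pos gx2 gy3, mul_pos gx2 gy2, mul_nonneg gx3' gy2', mul_nonneg gx3' gy3', mul_nonneg gx4' gy1', mul_nonneg gx4' gy2', mul_nonneg gx3' gy0', mul_nonneg gx4' gy0']
  have s_0_5_10 : 0 < (xA - xi) * (1 - 0) - (yA - 0) * (xi - xi) := by linarith only [gx1]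
  have s_0_6_10 : 0 < (xB - xi) * (1 - 0) - (yB - 0) * (xi - xi) := by linarith only [gx1, gx2]
  have s_0_7_6 : 0 < (xC - xi) * (yB - 0) - (yC - 0) * (xB - xi) := by linarith only [mul_nonneg gx3' gy1', mul_pos gx1 gy1, mul_pos gx1 gy3, mul_pos gx2 gy1, mul_pos gx1 gy2, mul_pos gx2 gy3, mul_pos gx2 gy2, mul_nonneg gx3' gy3', mul_nonneg gx3' gy0', mul_nonneg gx3' gy2']
  have s_0_7_10 : 0 < (xC - xi) * (1 - 0) - (yC - 0) * (xi - xi) := by linarith only [gx1, gx2, gx3']
  have s_0_8_10 : 0 < (xB - xA) * (1 - 0) - (yB - yA) * (xi - xi) := by linarith only [gx2]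
  have b_0_9_10 : 0 ≤ (1 - xC) * (1 - 0) - (eta - yC) * (xi - xi) := by linarith only [gx4']
  have s_1_0_1 : 0 < (xi - xi) * (1 - eta) - (1 - 0) * (xi - 1) := by linarith only [mul_pos gx1 gy1, mul_pos gx1 gy3, mul_pos gx2 gy1, mul_pos gx1 gy2, mul_pos gx2 gy3, mul_pos gx2 gy2, mul_nonneg gx2' gy4', mul_nonneg gx1' gy0', gx4', gx3', mul_nonneg gx2' gy0', mul_nonneg gx1' gy4']
  have b_1_0_3 : 0 ≤ (xi - xi) * (yB - eta) - (1 - 0) * (xB - 1) := by linarith only [gx3', gx4']
  have s_1_0_4 : 0 < (xi - xi) * (eta - 0) - (1 - 0) * (0 - xi) := by linarith only [gx0]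
  have s_1_0_5 : 0 < (xi - xi) * (1 - yA) - (1 - 0) * (xi - xA) := by linarith only [gx1]
  have s_1_0_6 : 0 < (xi - xi) * (1 - yB) - (1 - 0) * (xi - xB) := by linarith only [gx1, gx2]
  have s_1_0_8 : 0 < (xi - xi) * (1 - yC) - (1 - 0) * (xi - xC) := by linarith only [gx1, gx2, gx3']
  have s_1_0_9 : 0 < (xi - xi) * (yA - yC) - (1 - 0) * (xA - xC) := by linarith only [mul_pos gx2 gy1, mul_pos gx2 gy3, mul_pos gx2 gy2, mul_nonneg gx2' gy4', gx3', mul_nonneg gx2' gy0']
  have s_1_0_11 : 0 < (xi - xi) * (eta - eta) - (1 - 0) * (0 - 1) := by linarith only [gx1, gx2, gx4', gx3', gx0]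
  have s_1_1_11 : 0 < (xi - 1) * (eta - eta) - (1 - eta) * (0 - 1) := by linarith only [gy3, gy2, gy4']
  have s_1_2_11 : 0 < (xA - 1) * (eta - eta) - (yA - eta) * (0 - 1) := by linarith only [gy2]
  have s_1_3_11 : 0 < (xB - 1) * (eta - eta) - (yB - eta) * (0 - 1) := by linarith only [gy3, gy2]
  have b_1_4_1 : 0 ≤ (0 - xi) * (1 - eta) - (eta - 0) * (xi - 1) := by linarith only [e']
  have s_1_4_11 : 0 < (0 - xi) * (eta - eta) - (eta - 0) * (0 - 1) := by linarith only [mul_pos gx0 gy1, gy0', mul_pos gx1 gy1, mul_pos gx2 gy1, mul_nonneg gx3' gy1', mul_nonneg gx4' gy1']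
  have s_1_5_6 : 0 < (xi - xA) * (1 - yB) - (1 - yA) * (xi - xB) := by linarith only [mul_pos gx1 gy3, mul_pos gx2 gy3, mul_nonneg gx2' gy4']
  have b_1_6_11 : 0 ≤ (xi - xB) * (eta - eta) - (1 - yB) * (0 - 1) := by linarith only [gy4']
  have s_1_8_1 : 0 < (xi - xC) * (1 - eta) - (1 - yC) * (xi - 1) := by linarith only [mul_nonneg gx3' gy1', mul_nonneg gx4' gy1', mul_pos gx1 gy1, mul_pos gx2 gy1, gx4', mul_nonneg gx4' hy']
  have s_1_8_7 : 0 < (xi - xC) * (eta - yC) - (1 - yC) * (0 - xC) := by linarith only [mul_pos gx0 gy1, mul_pos gx0 gy3, mul_pos gx0 gy2, mul_pos gx1 gy3, mul_pos gx1 gy2, mul_pos gx2 gy3, mul_pos gx2 gy2, mul_nonneg gx3' hy', mul_nonneg gx0' gy4', mul_nonneg gx1' gy4', gx3', mul_nonneg gx2' gy4']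
  have s_1_8_11 : 0 < (xi - xC) * (eta - eta) - (1 - yC) * (0 - 1) := by linarith only [gy3, gy2, gy4', gy1]
  have s_1_9_2 : 0 < (xA - xC) * (yA - eta) - (yA - yC) * (xA - 1) := by linarith only [mul_pos gx2 gy1, mul_nonneg gx3' gy1', mul_nonneg gx4' gy2', mul_nonneg gx4' gy1']
  have s_1_9_7 : 0 < (xA - xC) * (eta - yC) - (yA - yC) * (0 - xC) := by linarith only [mul_pos gx0 gy1, mul_pos gx1 gy1, mul_pos gx0 gy2, mul_pos gx1 gy2, mul_pos gx2 gy2, mul_nonneg gx3' gy2']
  have s_1_9_11 : 0 < (xA - xC) * (eta - eta) - (yA - yC) * (0 - 1) := by linarith only [gy2, gy1]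
  have b_1_10_3 : 0 ≤ (xB - xC) * (yB - eta) - (yB - yC) * (xB - 1) := by linarith only [mul_nonneg gx3' gy1', mul_nonneg gx4' gy2', mul_nonneg gx4' gy3', mul_nonneg gx4' gy1']
  have m_UBR : (0 < 2 * xB - xi - 1 ∧ 0 < 2 * yB - 1 - eta) ∨ (0 < -(2 * xB - xi - 1) ∧ 0 < -(2 * yB - 1 - eta)) := midDec H F (a := Lb.U) (b := Lb.B) (c := Lb.R) (by decide) (by decide) (show xi ≤ xB by linarith) (show xB ≤ 1 by linarith) (show yB ≤ 1 by linarith) (show eta ≤ yB by linarith) (show 1 - xi ≤ 1 by linarith) (show 1 - eta ≤ 1 by linarith)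
  rcases m_UBR with ⟨mxUBRH, myUBRH⟩ | ⟨mxUBRV, myUBRV⟩
  · have mxUBRH' := mxUBRH.le
    have myUBRH' := myUBRH.le
    rcases le_total 0 ((0 - xi) * (1 - yB) - (eta - 0) * (xi - xB)) with o_1_4_6 | h_1_4_6
    · skip
      rcases le_total 0 ((xi - 1) * (yB - eta) - (1 - eta) * (xB - 1)) with o_1_1_3 | h_1_1_3
      · skip
        have r0 : (1 - 0) * (1 - 0) - (eta - eta) * (xi - xi) < 2 * ((xB - xA) * (1 - 0) - (yB - yA) * (xi - xi) + ((1 - 0) * (yB - yA) - (eta - eta) * (xB - xA))) := H Lb.B Lb.A Lb.R Lb.L Lb.U Lb.D (by decide) (s_0_0_8.le) (s_0_8_10.le) (s_0_0_10)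
        have r1 : (1 - 0) * (1 - 0) - (eta - eta) * (xi - xi) < 2 * ((xA - 0) * (1 - 0) - (yA - eta) * (xi - xi) + ((1 - 0) * (yA - eta) - (eta - eta) * (xA - 0))) := H Lb.A Lb.L Lb.R Lb.L Lb.U Lb.D (by decide) (s_0_0_2.le) (s_0_2_10.le) (s_0_0_10)
        have d_1_4_3_0 : 0 ≤ (0 - xi) * (yB - eta) - (eta - 0) * (xB - 1) := tr1 (by linarith) (by linarith) (by linarith) (b_1_4_1) (o_1_1_3)
        linarith only [r0, r1, o_1_1_3, d_1_4_3_0]
      · have o_1_3_1 : 0 ≤ (xB - 1) * (1 - eta) - (yB - eta) * (xi - 1) := by linarith only [h_1_1_3]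
        rcases le_total 0 ((xi - 1) * (1 - yB) - (1 - eta) * (xi - xB)) with o_1_1_6 | h_1_1_6
        · skip
          have m_DCR : (0 < 2 * xC - xi - 1 ∧ 0 < -(2 * yC - 0 - eta)) ∨ (0 < -(2 * xC - xi - 1) ∧ 0 < 2 * yC - 0 - eta) := midInc H F (a := Lb.D) (b := Lb.C) (c := Lb.R) (by decide) (by decide) (show xi ≤ xC by linarith) (show xC ≤ 1 by linarith) (show 0 ≤ yC by linarith) (show yC ≤ eta by linarith) (show 1 - xi ≤ 1 by linarith) (show eta - 0 ≤ 1 by linarith)
          rcases m_DCR with ⟨mxDCRH, myDCRH⟩ | ⟨mxDCRV, myDCRV⟩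
          · have mxDCRH' := mxDCRH.le
            have myDCRH' := myDCRH.le
            rcases le_total 0 ((1 - xi) * (eta - yC) - (eta - 0) * (1 - xC)) with o_0_4_9 | h_0_4_9
            · skip
              rcases le_total 0 ((1 - xi) * (yC - 0) - (eta - 0) * (xC - xi)) with o_0_4_7 | h_0_4_7
              · skip
                linarith only [mul_pos gx1 myDCRH, mul_nonneg gx3' myDCRH', mul_nonneg mxDCRH' gy0', o_0_4_7, mul_pos gx2 myDCRH]
              · have o_0_7_4 : 0 ≤ (xC - xi) * (eta - 0) - (yC - 0) * (1 - xi) := by linarith only [h_0_4_7]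
                rcases le_total 0 ((xA - 0) * (yB - 0) - (yA - eta) * (xB - xi)) with o_0_2_6 | h_0_2_6
                · skip
                  have m_UAR : (0 < 2 * xA - xi - 1 ∧ 0 < 2 * yA - 1 - eta) ∨ (0 < -(2 * xA - xi - 1) ∧ 0 < -(2 * yA - 1 - eta)) := midDec H F (a := Lb.U) (b := Lb.A) (c := Lb.R) (by decide) (by decide) (show xi ≤ xA by linarith) (show xA ≤ 1 by linarith) (show yA ≤ 1 by linarith) (show eta ≤ yA by linarith) (show 1 - xi ≤ 1 by linarith) (show 1 - eta ≤ 1 by linarith)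
                  rcases m_UAR with ⟨mxUARH, myUARH⟩ | ⟨mxUARV, myUARV⟩
                  · have mxUARH' := mxUARH.le
                    have myUARH' := myUARH.le
                    have m_LAB : (0 < 2 * xA - 0 - xB ∧ 0 < -(2 * yA - eta - yB)) ∨ (0 < -(2 * xA - 0 - xB) ∧ 0 < 2 * yA - eta - yB) := midInc H F (a := Lb.L) (b := Lb.A) (c := Lb.B) (by decide) (by decide) (show 0 ≤ xA by linarith) (show xA ≤ xB by linarith) (show eta ≤ yA by linarith) (show yA ≤ yB by linarith) (show xB - 0 ≤ 1 by linarith) (show yB - eta ≤ 1 by linarith)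
                    rcases m_LAB with ⟨mxLABH, myLABH⟩ | ⟨mxLABV, myLABV⟩
                    · have mxLABH' := mxLABH.le
                      have myLABH' := myLABH.le
                      linarith only [myUARH, myLABH, gy4']
                    · have mxLABV' := mxLABV.le
                      have myLABV' := myLABV.le
                      have r0 : (1 - 0) * (1 - 0) - (eta - eta) * (xi - xi) < 2 * ((1 - xC) * (1 - 0) - (eta - yC) * (xi - xi) + ((1 - 0) * (eta - yC) - (eta - eta) * (1 - xC))) := H Lb.R Lb.C Lb.R Lb.L Lb.U Lb.D (by decide) (s_0_0_9.le) (b_0_9_10) (s_0_0_10)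
                      have r1 : (xi - xi) * (eta - eta) - (1 - 0) * (0 - 1) < 2 * ((xB - 1) * (eta - eta) - (yB - eta) * (0 - 1) + ((xi - xi) * (yB - eta) - (1 - 0) * (xB - 1))) := H Lb.B Lb.R Lb.U Lb.D Lb.L Lb.R (by decide) (b_1_0_3) (s_1_3_11.le) (s_1_0_11)
                      linarith only [gy0', mxUARH, mxLABV, gy4', r0, gx3', r1, gx0]
                  · have mxUARV' := mxUARV.le
                    have myUARV' := myUARV.le
                    rcases le_total 0 ((xi - 1) * (1 - yA) - (1 - eta) * (xi - xA)) with o_1_1_5 | h_1_1_5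
                    · skip
                      linarith only [mul_pos mxUARV myUARV, mul_pos gx1 myUARV, o_1_1_5, mul_pos mxUARV gy2]
                    · have o_1_5_1 : 0 ≤ (xi - xA) * (1 - eta) - (1 - yA) * (xi - 1) := by linarith only [h_1_1_5]
                      rcases le_total 0 ((xA - 0) * (eta - 0) - (yA - eta) * (1 - xi)) with o_0_2_4 | h_0_2_4
                      · skip
                        have m_DAB : (0 < 2 * xA - xi - xB ∧ 0 < -(2 * yA - 0 - yB)) ∨ (0 < -(2 * xA - xi - xB) ∧ 0 < 2 * yA - 0 - yB) := midInc H F (a := Lb.D) (b := Lb.A) (c := Lb.B) (by decide) (by decide) (show xi ≤ xA by linarith) (show xA ≤ xB by linarith) (show 0 ≤ yA by linarith) (show yA ≤ yB by linarith) (show xB - xi ≤ 1 by linarith) (show yB - 0 ≤ 1 by linarith)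
                        rcases m_DAB with ⟨mxDABH, myDABH⟩ | ⟨mxDABV, myDABV⟩
                        · have mxDABH' := mxDABH.le
                          have myDABH' := myDABH.le
                          have m_UAC : (0 < 2 * xA - xi - xC ∧ 0 < 2 * yA - 1 - yC) ∨ (0 < -(2 * xA - xi - xC) ∧ 0 < -(2 * yA - 1 - yC)) := midDec H F (a := Lb.U) (b := Lb.A) (c := Lb.C) (by decide) (by decide) (show xi ≤ xA by linarith) (show xA ≤ xC by linarith) (show yA ≤ 1 by linarith) (show yC ≤ yA by linarith) (show xC - xi ≤ 1 by linarith) (show 1 - yC ≤ 1 by linarith)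
                          rcases m_UAC with ⟨mxUACH, myUACH⟩ | ⟨mxUACV, myUACV⟩
                          · have mxUACH' := mxUACH.le
                            have myUACH' := myUACH.le
                            linarith only [gy0', gy4', myDABH, myUACH]
                          · have mxUACV' := mxUACV.le
                            have myUACV' := myUACV.le
                            rcases le_total 0 ((xi - xC) * (yA - yC) - (1 - yC) * (xA - xC)) with o_1_8_9 | h_1_8_9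
                            · skip
                              rcases le_total 0 ((0 - xi) * (1 - yC) - (eta - 0) * (xi - xC)) with o_1_4_8 | h_1_4_8
                              · skip
                                rcases le_total 0 ((xB - xi) * (eta - yC) - (yB - 0) * (1 - xC)) with o_0_6_9 | h_0_6_9
                                · skip
                                  rcases le_total 0 ((xB - 1) * (1 - yC) - (yB - eta) * (xi - xC)) with o_1_3_8 | h_1_3_8
                                  · skip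
                                    have d_1_10_8_0 : 0 ≤ (xB - xC) * (1 - yC) - (yB - yC) * (xi - xC) := tr1 (by linarith) (by linarith) (by linarith) (b_1_10_3) (o_1_3_8)
                                    have r0 : (xB - xC) * (1 - yC) - (yB - yC) * (xi - xC) ≤ 2 * ((xB - 1) * (1 - yC) - (yB - eta) * (xi - xC) + ((xB - xC) * (yB - eta) - (yB - yC) * (xB - 1))) := H.le Lb.B Lb.R Lb.B Lb.C Lb.U Lb.C (by decide) (b_1_10_3) (o_1_3_8) (d_1_10_8_0)
                                    have r1 : (xB - xi) * (1 - 0) - (yB - 0) * (xi - xi) < 2 * ((1 - xC) * (1 - 0) - (eta - yC) * (xi - xi) + ((xB - xi) * (eta - yC) - (yB - 0) * (1 - xC))) := H Lb.R Lb.C Lb.B Lb.D Lb.U Lb.D (by decide) (o_0_6_9) (b_0_9_10) (s_0_6_10)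
                                    linarith only [mul_nonneg gx2' gy0', mul_nonneg gx1' gy4', mul_nonneg gx1' gy0', mul_nonneg gx2' gy4', r0, r1, mul_nonneg gx3' gy4']
                                  · have o_1_8_3 : 0 ≤ (xi - xC) * (yB - eta) - (1 - yC) * (xB - 1) := by linarith only [h_1_3_8]
                                    have r0 : (xi - xC) * (eta - yC) - (1 - yC) * (0 - xC) < 2 * ((xA - xC) * (eta - yC) - (yA - yC) * (0 - xC) + ((xi - xC) * (yA - yC) - (1 - yC) * (xA - xC))) := H Lb.A Lb.C Lb.U Lb.C Lb.L Lb.C (by decide) (o_1_8_9) (s_1_9_7.le) (s_1_8_7)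
                                    have r1 : (xi - xi) * (1 - yC) - (1 - 0) * (xi - xC) < 2 * ((0 - xi) * (1 - yC) - (eta - 0) * (xi - xC) + ((xi - xi) * (eta - 0) - (1 - 0) * (0 - xi))) := H Lb.L Lb.D Lb.U Lb.D Lb.U Lb.C (by decide) (s_1_0_4.le) (o_1_4_8) (s_1_0_8)
                                    have r2 : (xi - 1) * (eta - eta) - (1 - eta) * (0 - 1) < 2 * ((xi - xB) * (eta - eta) - (1 - yB) * (0 - 1) + ((xi - 1) * (1 - yB) - (1 - eta) * (xi - xB))) := H Lb.U Lb.B Lb.U Lb.R Lb.L Lb.R (by decide) (o_1_1_6) (b_1_6_11) (s_1_1_11)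
                                    have d_0_2_9_0 : 0 ≤ (xA - 0) * (eta - yC) - (yA - eta) * (1 - xC) := tr0 (by linarith) (by linarith) (by linarith) (o_0_2_4) (o_0_4_9)
                                    have r3 : (1 - 0) * (eta - yC) - (eta - eta) * (1 - xC) < 2 * ((xA - 0) * (eta - yC) - (yA - eta) * (1 - xC) + ((1 - 0) * (yA - eta) - (eta - eta) * (xA - 0))) := H Lb.A Lb.L Lb.R Lb.L Lb.R Lb.C (by decide) (s_0_0_2.le) (d_0_2_9_0) (s_0_0_9)
                                    linarith only [r0, mul_pos gx0 myDABH, mul_pos gx2 myDABH, mul_pos mxDABH myDABH, mul_nonneg mxDABH' gy4', r1, mul_nonneg mxDABH' gy0', mul_pos mxDABH gy2, r2, mul_nonneg gx3' myDABH', r3, o_1_8_3]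
                                · have o_0_9_6 : 0 ≤ (1 - xC) * (yB - 0) - (eta - yC) * (xB - xi) := by linarith only [h_0_6_9]
                                  have d_0_2_9_0 : 0 ≤ (xA - 0) * (eta - yC) - (yA - eta) * (1 - xC) := tr0 (by linarith) (by linarith) (by linarith) (o_0_2_4) (o_0_4_9)
                                  have r0 : (1 - 0) * (eta - yC) - (eta - eta) * (1 - xC) < 2 * ((xA - 0) * (eta - yC) - (yA - eta) * (1 - xC) + ((1 - 0) * (yA - eta) - (eta - eta) * (xA - 0))) := H Lb.A Lb.L Lb.R Lb.L Lb.R Lb.C (by decide) (s_0_0_2.le) (d_0_2_9_0) (s_0_0_9)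
                                  have r1 : (1 - 0) * (eta - 0) - (eta - eta) * (1 - xi) < 2 * ((xA - 0) * (eta - 0) - (yA - eta) * (1 - xi) + ((1 - 0) * (yA - eta) - (eta - eta) * (xA - 0))) := H Lb.A Lb.L Lb.R Lb.L Lb.R Lb.D (by decide) (s_0_0_2.le) (o_0_2_4) (s_0_0_4)
                                  have r2 : (xi - 1) * (eta - eta) - (1 - eta) * (0 - 1) < 2 * ((xi - xB) * (eta - eta) - (1 - yB) * (0 - 1) + ((xi - 1) * (1 - yB) - (1 - eta) * (xi - xB))) := H Lb.U Lb.B Lb.U Lb.R Lb.L Lb.R (by decide) (o_1_1_6) (b_1_6_11) (s_1_1_11)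
                                  have r3 : (1 - 0) * (yB - 0) - (eta - eta) * (xB - xi) < 2 * ((1 - xC) * (yB - 0) - (eta - yC) * (xB - xi) + ((1 - 0) * (eta - yC) - (eta - eta) * (1 - xC))) := H Lb.R Lb.C Lb.R Lb.L Lb.B Lb.D (by decide) (s_0_0_9.le) (o_0_9_6) (s_0_0_6)
                                  have d_1_8_6_1 : 0 ≤ (xi - xC) * (1 - yB) - (1 - yC) * (xi - xB) := tr1 (by linarith) (by linarith) (by linarith) (s_1_8_1.le) (o_1_1_6)
                                  have r4 : (xi - xC) * (eta - eta) - (1 - yC) * (0 - 1) < 2 * ((xi - xB) * (eta - eta) - (1 - yB) * (0 - 1) + ((xi - xC) * (1 - yB) - (1 - yC) * (xi - xB))) := H Lb.U Lb.B Lb.U Lb.C Lb.L Lb.R (by decide) (d_1_8_6_1) (b_1_6_11) (s_1_8_11)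
                                  have d_0_2_6_2 : 0 ≤ (xA - 0) * (yB - 0) - (yA - eta) * (xB - xi) := tr0 (by linarith) (by linarith) (by linarith) (o_0_2_4) (s_0_4_6.le)
                                  have r5 : (1 - 0) * (yB - 0) - (eta - eta) * (xB - xi) < 2 * ((xA - 0) * (yB - 0) - (yA - eta) * (xB - xi) + ((1 - 0) * (yA - eta) - (eta - eta) * (xA - 0))) := H Lb.A Lb.L Lb.R Lb.L Lb.B Lb.D (by decide) (s_0_0_2.le) (d_0_2_6_2) (s_0_0_6)
                                  have r6 : (xi - xi) * (1 - yC) - (1 - 0) * (xi - xC) < 2 * ((0 - xi) * (1 - yC) - (eta - 0) * (xi - xC) + ((xi - xi) * (eta - 0) - (1 - 0) * (0 - xi))) := H Lb.L Lb.D Lb.U Lb.D Lb.U Lb.C (by decide) (s_1_0_4.le) (o_1_4_8) (s_1_0_8)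
                                  linarith only [r0, mul_pos mxDABH myDABH, mul_pos mxDABH gy1, mul_pos mxUACV myDABH, r1, mul_pos mxUACV gy2, mxUACV, mul_pos gx2 myDABH, mul_pos mxDABH gy2, mul_pos gx0 myDABH, mul_pos mxUACV myUACV, mul_pos mxUACV gy1, r2, o_1_4_8, mul_nonneg hx' myUACV', r3, mul_pos mxDABH myUACV, r4, r5, r6]
                              · have o_1_8_4 : 0 ≤ (xi - xC) * (eta - 0) - (1 - yC) * (0 - xi) := by linarith only [h_1_4_8]
                                have d_1_8_6_0 : 0 ≤ (xi - xC) * (1 - yB) - (1 - yC) * (xi - xB) := tr1 (by linarith) (by linarith) (by linarith) (o_1_8_4) (o_1_4_6)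
                                have r0 : (xi - xC) * (eta - eta) - (1 - yC) * (0 - 1) < 2 * ((xi - xB) * (eta - eta) - (1 - yB) * (0 - 1) + ((xi - xC) * (1 - yB) - (1 - yC) * (xi - xB))) := H Lb.U Lb.B Lb.U Lb.C Lb.L Lb.R (by decide) (d_1_8_6_0) (b_1_6_11) (s_1_8_11)
                                have r1 : (xi - xC) * (eta - eta) - (1 - yC) * (0 - 1) < 2 * ((0 - xi) * (eta - eta) - (eta - 0) * (0 - 1) + ((xi - xC) * (eta - 0) - (1 - yC) * (0 - xi))) := H Lb.L Lb.D Lb.U Lb.C Lb.L Lb.R (by decide) (o_1_8_4) (s_1_4_11.le) (s_1_8_11)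
                                have d_1_8_2_1 : 0 ≤ (xi - xC) * (yA - eta) - (1 - yC) * (xA - 1) := tr1 (by linarith) (by linarith) (by linarith) (o_1_8_9) (s_1_9_2.le)
                                have r2 : (xi - xC) * (eta - eta) - (1 - yC) * (0 - 1) < 2 * ((xA - 1) * (eta - eta) - (yA - eta) * (0 - 1) + ((xi - xC) * (yA - eta) - (1 - yC) * (xA - 1))) := H Lb.A Lb.R Lb.U Lb.C Lb.L Lb.R (by decide) (d_1_8_2_1) (s_1_2_11.le) (s_1_8_11)
                                have r3 : (xi - xC) * (eta - eta) - (1 - yC) * (0 - 1) < 2 * ((xA - xC) * (eta - eta) - (yA - yC) * (0 - 1) + ((xi - xC) * (yA - yC) - (1 - yC) * (xA - xC))) := H Lb.A Lb.C Lb.U Lb.C Lb.L Lb.R (by decide) (o_1_8_9) (s_1_9_11.le) (s_1_8_11)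
                                linarith only [mul_pos mxDABH gy2, mul_pos mxDABH gy1, r0, mul_pos mxDABH myDABH, r1, mxDABH, r2, mul_nonneg mxDABH' gy4', mul_pos gx0 myDABH, r3, mul_nonneg gx4' myDABH']
                            · have o_1_9_8 : 0 ≤ (xA - xC) * (1 - yC) - (yA - yC) * (xi - xC) := by linarith only [h_1_8_9]
                              have r0 : (xi - xi) * (1 - yC) - (1 - 0) * (xi - xC) < 2 * ((xA - xC) * (1 - yC) - (yA - yC) * (xi - xC) + ((xi - xi) * (yA - yC) - (1 - 0) * (xA - xC))) := H Lb.A Lb.C Lb.U Lb.D Lb.U Lb.C (by decide) (s_1_0_9.le) (o_1_9_8) (s_1_0_8)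
                              linarith only [mul_pos mxDABH myDABH, mul_nonneg gx2' gy4', r0, mul_nonneg gx3' gy4', mul_nonneg gx1' gy0', mul_pos gx2 myDABH, mul_nonneg gx3' myDABH', mul_nonneg gx1' gy4']
                        · have mxDABV' := mxDABV.le
                          have myDABV' := myDABV.le
                          rcases le_total 0 ((xB - xi) * (yB - yA) - (yB - 0) * (xB - xA)) with o_0_6_8 | h_0_6_8
                          · skip
                            linarith only [o_0_6_8, mul_pos mxDABV myDABV, mul_pos mxDABV gy3, mul_pos gx1 myDABV]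
                          · have o_0_8_6 : 0 ≤ (xB - xA) * (yB - 0) - (yB - yA) * (xB - xi) := by linarith only [h_0_6_8]
                            rcases le_total 0 ((xB - xi) * (eta - yC) - (yB - 0) * (1 - xC)) with o_0_6_9 | h_0_6_9
                            · skip
                              rcases le_total 0 ((xB - 1) * (1 - yC) - (yB - eta) * (xi - xC)) with o_1_3_8 | h_1_3_8
                              · skip
                                have d_1_10_8_0 : 0 ≤ (xB - xC) * (1 - yC) - (yB - yC) * (xi - xC) := tr1 (by linarith) (by linarith) (by linarith) (b_1_10_3) (o_1_3_8)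
                                have r0 : (xB - xC) * (1 - yC) - (yB - yC) * (xi - xC) ≤ 2 * ((xB - 1) * (1 - yC) - (yB - eta) * (xi - xC) + ((xB - xC) * (yB - eta) - (yB - yC) * (xB - 1))) := H.le Lb.B Lb.R Lb.B Lb.C Lb.U Lb.C (by decide) (b_1_10_3) (o_1_3_8) (d_1_10_8_0)
                                have r1 : (xB - xi) * (1 - 0) - (yB - 0) * (xi - xi) < 2 * ((1 - xC) * (1 - 0) - (eta - yC) * (xi - xi) + ((xB - xi) * (eta - yC) - (yB - 0) * (1 - xC))) := H Lb.R Lb.C Lb.B Lb.D Lb.U Lb.D (by decide) (o_0_6_9) (b_0_9_10) (s_0_6_10)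
                                linarith only [mul_nonneg gx2' gy0', mul_nonneg gx1' gy4', mul_nonneg gx1' gy0', mul_nonneg gx2' gy4', r0, r1, mul_nonneg gx3' gy4']
                              · have o_1_8_3 : 0 ≤ (xi - xC) * (yB - eta) - (1 - yC) * (xB - 1) := by linarith only [h_1_3_8]
                                have d_0_7_1_0 : 0 ≤ (xC - xi) * (1 - eta) - (yC - 0) * (xi - 0) := tr0 (by linarith) (by linarith) (by linarith) (o_0_7_4) (b_0_4_1)
                                have r0 : (1 - 0) * (1 - eta) - (eta - eta) * (xi - 0) < 2 * ((xC - xi) * (1 - eta) - (yC - 0) * (xi - 0) + ((1 - 0) * (yC - 0) - (eta - eta) * (xC - xi))) := H Lb.C Lb.D Lb.R Lb.L Lb.U Lb.L (by decide) (b_0_0_7) (d_0_7_1_0) (s_0_0_1)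
                                have r1 : (1 - 0) * (yB - 0) - (eta - eta) * (xB - xi) < 2 * ((xA - 0) * (yB - 0) - (yA - eta) * (xB - xi) + ((1 - 0) * (yA - eta) - (eta - eta) * (xA - 0))) := H Lb.A Lb.L Lb.R Lb.L Lb.B Lb.D (by decide) (s_0_0_2.le) (o_0_2_6) (s_0_0_6)
                                have r2 : (xi - xC) * (1 - eta) - (1 - yC) * (xi - 1) < 2 * ((xB - 1) * (1 - eta) - (yB - eta) * (xi - 1) + ((xi - xC) * (yB - eta) - (1 - yC) * (xB - 1))) := H Lb.B Lb.R Lb.U Lb.C Lb.U Lb.R (by decide) (o_1_8_3) (o_1_3_1) (s_1_8_1)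
                                have r3 : (1 - 0) * (yB - 0) - (eta - eta) * (xB - xi) < 2 * ((xB - xA) * (yB - 0) - (yB - yA) * (xB - xi) + ((1 - 0) * (yB - yA) - (eta - eta) * (xB - xA))) := H Lb.B Lb.A Lb.R Lb.L Lb.B Lb.D (by decide) (s_0_0_8.le) (o_0_8_6) (s_0_0_6)
                                have r4 : (xB - xi) * (1 - 0) - (yB - 0) * (xi - xi) < 2 * ((1 - xC) * (1 - 0) - (eta - yC) * (xi - xi) + ((xB - xi) * (eta - yC) - (yB - 0) * (1 - xC))) := H Lb.R Lb.C Lb.B Lb.D Lb.U Lb.D (by decide) (o_0_6_9) (b_0_9_10) (s_0_6_10)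
                                have r5 : (xi - 1) * (eta - eta) - (1 - eta) * (0 - 1) < 2 * ((xi - xB) * (eta - eta) - (1 - yB) * (0 - 1) + ((xi - 1) * (1 - yB) - (1 - eta) * (xi - xB))) := H Lb.U Lb.B Lb.U Lb.R Lb.L Lb.R (by decide) (o_1_1_6) (b_1_6_11) (s_1_1_11)
                                linarith only [r0, r1, r2, r3, r4, r5]
                            · have o_0_9_6 : 0 ≤ (1 - xC) * (yB - 0) - (eta - yC) * (xB - xi) := by linarith only [h_0_6_9]
                              have r0 : (1 - 0) * (yB - 0) - (eta - eta) * (xB - xi) < 2 * ((xA - 0) * (yB - 0) - (yA - eta) * (xB - xi) + ((1 - 0) * (yA - eta) - (eta - eta) * (xA - 0))) := H Lb.A Lb.L Lb.R Lb.L Lb.B Lb.D (by decide) (s_0_0_2.le) (o_0_2_6) (s_0_0_6)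
                              have r1 : (1 - 0) * (yB - 0) - (eta - eta) * (xB - xi) < 2 * ((xC - xi) * (yB - 0) - (yC - 0) * (xB - xi) + ((1 - 0) * (yC - 0) - (eta - eta) * (xC - xi))) := H Lb.C Lb.D Lb.R Lb.L Lb.B Lb.D (by decide) (b_0_0_7) (s_0_7_6.le) (s_0_0_6)
                              have r2 : (1 - 0) * (yB - 0) - (eta - eta) * (xB - xi) < 2 * ((1 - xC) * (yB - 0) - (eta - yC) * (xB - xi) + ((1 - 0) * (eta - yC) - (eta - eta) * (1 - xC))) := H Lb.R Lb.C Lb.R Lb.L Lb.B Lb.D (by decide) (s_0_0_9.le) (o_0_9_6) (s_0_0_6)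
                              have r3 : (1 - 0) * (yB - 0) - (eta - eta) * (xB - xi) < 2 * ((xB - xA) * (yB - 0) - (yB - yA) * (xB - xi) + ((1 - 0) * (yB - yA) - (eta - eta) * (xB - xA))) := H Lb.B Lb.A Lb.R Lb.L Lb.B Lb.D (by decide) (s_0_0_8.le) (o_0_8_6) (s_0_0_6)
                              linarith only [r0, r1, r2, r3]
                      · have o_0_4_2 : 0 ≤ (1 - xi) * (yA - eta) - (eta - 0) * (xA - 0) := by linarith only [h_0_2_4]
                        have r0 : (xi - xi) * (1 - eta) - (1 - 0) * (xi - 1) < 2 * ((0 - xi) * (1 - eta) - (eta - 0) * (xi - 1) + ((xi - xi) * (eta - 0) - (1 - 0) * (0 - xi))) := H Lb.L Lb.D Lb.U Lb.D Lb.U Lb.R (by decide) (s_1_0_4.le) (b_1_4_1) (s_1_0_1)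
                        have r1 : (xi - xi) * (1 - eta) - (1 - 0) * (xi - 1) < 2 * ((xi - xA) * (1 - eta) - (1 - yA) * (xi - 1) + ((xi - xi) * (1 - yA) - (1 - 0) * (xi - xA))) := H Lb.U Lb.A Lb.U Lb.D Lb.U Lb.R (by decide) (s_1_0_5.le) (o_1_5_1) (s_1_0_1)
                        linarith only [r0, o_0_4_2, r1]
                · have o_0_6_2 : 0 ≤ (xB - xi) * (yA - eta) - (yB - 0) * (xA - 0) := by linarith only [h_0_2_6]
                  have r0 : (xi - xi) * (1 - yB) - (1 - 0) * (xi - xB) < 2 * ((xi - xA) * (1 - yB) - (1 - yA) * (xi - xB) + ((xi - xi) * (1 - yA) - (1 - 0) * (xi - xA))) := H Lb.U Lb.A Lb.U Lb.D Lb.U Lb.B (by decide) (s_1_0_5.le) (s_1_5_6.le) (s_1_0_6)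
                  have r1 : (xi - xi) * (1 - eta) - (1 - 0) * (xi - 1) < 2 * ((0 - xi) * (1 - eta) - (eta - 0) * (xi - 1) + ((xi - xi) * (eta - 0) - (1 - 0) * (0 - xi))) := H Lb.L Lb.D Lb.U Lb.D Lb.U Lb.R (by decide) (s_1_0_4.le) (b_1_4_1) (s_1_0_1)
                  linarith only [r0, mul_pos gx0 gy3, mul_pos gx0 gy2, mul_nonneg gx3' hy', r1, o_0_6_2, mul_nonneg gx4' hy']
            · have o_0_9_4 : 0 ≤ (1 - xC) * (eta - 0) - (eta - yC) * (1 - xi) := by linarith only [h_0_4_9]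
              linarith only [mul_nonneg mxDCRH' gy0', mul_nonneg gx3' myDCRH', mul_pos gx1 myDCRH, o_0_9_4, mul_pos gx2 myDCRH]
          · have mxDCRV' := mxDCRV.le
            have myDCRV' := myDCRV.le
            linarith only [mul_pos mxUBRH gy3, mul_pos mxDCRV gy2, mul_pos mxDCRV myDCRV, mul_pos mxUBRH gy2, mul_pos mxDCRV gy3, mul_pos mxUBRH myDCRV, mul_pos mxDCRV gy1, mul_pos mxUBRH gy1, mul_nonneg gx3' myUBRH', gx3']
        · have o_1_6_1 : 0 ≤ (xi - xB) * (1 - eta) - (1 - yB) * (xi - 1) := by linarith only [h_1_1_6]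
          linarith only [mul_nonneg mxUBRH' gy4', mul_pos gx1 myUBRH, mul_pos gx2 myUBRH, o_1_6_1]
    · have o_1_6_4 : 0 ≤ (xi - xB) * (eta - 0) - (1 - yB) * (0 - xi) := by linarith only [h_1_4_6]
      have r0 : (1 - 0) * (1 - 0) - (eta - eta) * (xi - xi) < 2 * ((xB - xA) * (1 - 0) - (yB - yA) * (xi - xi) + ((1 - 0) * (yB - yA) - (eta - eta) * (xB - xA))) := H Lb.B Lb.A Lb.R Lb.L Lb.U Lb.D (by decide) (s_0_0_8.le) (s_0_8_10.le) (s_0_0_10)
      have r1 : (1 - 0) * (1 - 0) - (eta - eta) * (xi - xi) < 2 * ((xC - xi) * (1 - 0) - (yC - 0) * (xi - xi) + ((1 - 0) * (yC - 0) - (eta - eta) * (xC - xi))) := H Lb.C Lb.D Lb.R Lb.L Lb.U Lb.D (by decide) (b_0_0_7) (s_0_7_10.le) (s_0_0_10)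
      have r2 : (1 - 0) * (1 - 0) - (eta - eta) * (xi - xi) < 2 * ((1 - xC) * (1 - 0) - (eta - yC) * (xi - xi) + ((1 - 0) * (eta - yC) - (eta - eta) * (1 - xC))) := H Lb.R Lb.C Lb.R Lb.L Lb.U Lb.D (by decide) (s_0_0_9.le) (b_0_9_10) (s_0_0_10)
      have r3 : (1 - 0) * (1 - 0) - (eta - eta) * (xi - xi) < 2 * ((xA - 0) * (1 - 0) - (yA - eta) * (xi - xi) + ((1 - 0) * (yA - eta) - (eta - eta) * (xA - 0))) := H Lb.A Lb.L Lb.R Lb.L Lb.U Lb.D (by decide) (s_0_0_2.le) (s_0_2_10.le) (s_0_0_10)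
      have d_1_6_1_0 : 0 ≤ (xi - xB) * (1 - eta) - (1 - yB) * (xi - 1) := tr1 (by linarith) (by linarith) (by linarith) (o_1_6_4) (b_1_4_1)
      linarith only [r0, r1, o_1_6_4, r2, r3, d_1_6_1_0]
  · have mxUBRV' := mxUBRV.le
    have myUBRV' := myUBRV.le
    have r0 : (1 - 0) * (1 - 0) - (eta - eta) * (xi - xi) < 2 * ((xA - xi) * (1 - 0) - (yA - 0) * (xi - xi) + ((1 - 0) * (yA - 0) - (eta - eta) * (xA - xi))) := H Lb.A Lb.D Lb.R Lb.L Lb.U Lb.D (by decide) (s_0_0_5.le) (s_0_5_10.le) (s_0_0_10)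
    have r1 : (1 - 0) * (1 - 0) - (eta - eta) * (xi - xi) < 2 * ((xA - 0) * (1 - 0) - (yA - eta) * (xi - xi) + ((1 - 0) * (yA - eta) - (eta - eta) * (xA - 0))) := H Lb.A Lb.L Lb.R Lb.L Lb.U Lb.D (by decide) (s_0_0_2.le) (s_0_2_10.le) (s_0_0_10)
    have r2 : (1 - 0) * (1 - 0) - (eta - eta) * (xi - xi) < 2 * ((xB - xA) * (1 - 0) - (yB - yA) * (xi - xi) + ((1 - 0) * (yB - yA) - (eta - eta) * (xB - xA))) := H Lb.B Lb.A Lb.R Lb.L Lb.U Lb.D (by decide) (s_0_0_8.le) (s_0_8_10.le) (s_0_0_10)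
    linarith only [r0, mxUBRV, myUBRV, r1, r2]

end Run7.h790.SD
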