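import Pool.Agent.Run7.h790.SD.T12a
import Pool.Agent.Run7.h790.SD.T12b
import Pool.Agent.Run7.h790.SD.T21a
import Pool.Agent.Run7.h790.SD.T21b

/-!
Seven points in a normed plane: reduction to the four cases.
-/

set_option autoImplicit false

namespace Run7.h790.SD

section

variable {ι : Type} {x y : ι → ℝ} {L R D U : ι}

theorem Frame.negY (F : Frame x y L R D U) : Frame x (fun i => 1 - y i) L R U D :=
  ⟨F.xRL, by simp only [F.yRL], F.xUD.symm, by have := F.yUD; linarith⟩

theorem Frame.negX (F : Frame x y L R D U) : Frame (fun i => 1 - x i) y R L D U :=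
  ⟨by have := F.xRL; linarith, F.yRL.symm, by simp only [F.xUD], F.yUD⟩

theorem Frame.swap (F : Frame x y L R D U) : Frame y x D U L R :=
  ⟨F.yUD, F.xUD, F.yRL, F.xRL⟩

theorem l1Inc (H : Rule x y) (F : Frame x y L R D U) {k l : ι} (hkl : k ≠ l)
    (h1 : 0 ≤ x k - x l) (h2 : 0 ≤ y k - y l) : 1 < 2 * ((x k - x l) + (y k - y l)) := by
  obtain ⟨f1, f2, f3, f4⟩ := F
  have e1 : ∀ c d : ι, om x y R L c d = y c - y d := by
    intro c d; simp only [om, f1, f2]; ring
  have e2 : ∀ c d : ι, om x y c d U D = x c - x d := by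
    intro c d; simp only [om, f4, f3]; ring
  have := H k l R L U D hkl (by rw [e1]; exact h2) (by rw [e2]; exact h1)
    (by rw [e2, f1]; norm_num)
  rw [e2, e2, e1, f1] at this
  linarith

theorem l1Dec (H : Rule x y) (F : Frame x y L R D U) {k l : ι} (hkl : k ≠ l)
    (h1 : 0 ≤ x k - x l) (h2 : 0 ≤ y l - y k) : 1 < 2 * ((x k - x l) + (y l - y k)) := by
  have := l1Inc H.negY F.negY hkl h1 (by linarith)
  linarith

theorem chainInc (H : Rule x y) (F : Frame x y L R D U) {a b c d : ι} (hab : b ≠ a)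
    (hbc : c ≠ b) (hcd : d ≠ c) (h1 : x a ≤ x b) (h2 : x b ≤ x c) (h3 : x c ≤ x d)
    (h4 : y a ≤ y b) (h5 : y b ≤ y c) (h6 : y c ≤ y d) (h7 : x d - x a ≤ 1)
    (h8 : y d - y a ≤ 1) : False := by
  have s1 : ¬ (2 * (x b - x a) ≤ x d - x a ∧ 2 * (y b - y a) ≤ y d - y a) := fun h =>
    rectInc H F (k := b) (l := a) (i := d) (j := a) hab (by linarith) (by linarith) h.1 h.2 h7 h8
  have s2 : ¬ (2 * (x c - x b) ≤ x d - x a ∧ 2 * (y c - y b) ≤ y d - y a) := fun h =>
    rectInc H F (k := c) (l := b) (i := d) (j := a) hbc (by linarith) (by linarith) h.1 h.2 h7 h8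
  have s3 : ¬ (2 * (x d - x c) ≤ x d - x a ∧ 2 * (y d - y c) ≤ y d - y a) := fun h =>
    rectInc H F (k := d) (l := c) (i := d) (j := a) hcd (by linarith) (by linarith) h.1 h.2 h7 h8
  rw [not_and_or, not_le, not_le] at s1 s2 s3
  rcases s1 with s1 | s1 <;> rcases s2 with s2 | s2 <;> rcases s3 with s3 | s3 <;> linarith

theorem chainDec (H : Rule x y) (F : Frame x y L R D U) {a b c d : ι} (hab : b ≠ a)
    (hbc : c ≠ b) (hcd : d ≠ c) (h1 : x a ≤ x b) (h2 : x b ≤ x c) (h3 : x c ≤ x d)
    (h4 : y b ≤ y a) (h5 : y c ≤ y b) (h6 : y d ≤ y c) (h7 : x d - x a ≤ 1)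
    (h8 : y a - y d ≤ 1) : False :=
  chainInc H.negY F.negY hab hbc hcd h1 h2 h3 (by linarith) (by linarith) (by linarith) h7
    (by linarith)

theorem Rule.comp {κ : Type} (H : Rule x y) (f : κ → ι) (hf : Function.Injective f) :
    Rule (fun a => x (f a)) (fun a => y (f a)) := by
  intro k l i j i' j' hkl h1 h2 h3
  exact H (f k) (f l) (f i) (f j) (f i') (f j') (hf.ne hkl) h1 h2 h3

/-- the labelling of seven points -/
def lbl (L R D U A B C : ι) : Lb → ι
  | .L => L | .R => R | .D => D | .U => U | .A => A | .B => B | .C => C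

theorem lbl_inj {A B C : ι} (LR : L ≠ R) (LD : L ≠ D) (LU : L ≠ U) (RD : R ≠ D) (RU : R ≠ U)
    (DU : D ≠ U) (AL : A ≠ L) (AR : A ≠ R) (AD : A ≠ D) (AU : A ≠ U) (BL : B ≠ L) (BR : B ≠ R)
    (BD : B ≠ D) (BU : B ≠ U) (CL : C ≠ L) (CR : C ≠ R) (CD : C ≠ D) (CU : C ≠ U) (AB : A ≠ B)
    (AC : A ≠ C) (BC : B ≠ C) : Function.Injective (lbl L R D U A B C) := by
  intro a b h
  cases a <;> cases b <;> first
    | rfl
    | exact absurd h (by simp only [lbl]; assumption)
    | exact absurd h.symm (by simp only [lbl]; assumption)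

theorem rule_lbl (H : Rule x y) (F : Frame x y L R D U) (hL : x L = 0) (hD : y D = 0) {A B C : ι}
    (hf : Function.Injective (lbl L R D U A B C)) :
    Rule (px (x D) (x A) (x B) (x C)) (py (y L) (y A) (y B) (y C)) := by
  have h1 : px (x D) (x A) (x B) (x C) = fun a => x (lbl L R D U A B C a) := by
    funext a
    have := F.xRL; have := F.xUD
    cases a <;> simp only [px, lbl] <;> linarith
  have h2 : py (y L) (y A) (y B) (y C) = fun a => y (lbl L R D U A B C a) := by
    funext a
    have := F.yRL; have := F.yUD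
    cases a <;> simp only [py, lbl] <;> linarith
  rw [h1, h2]
  exact H.comp _ hf

/-- The normalised situation. -/
structure Norm (x y : ι → ℝ) (L R D U : ι) : Prop where
  H : Rule x y
  F : Frame x y L R D U
  xL : x L = 0
  yD : y D = 0
  x0 : ∀ i, 0 ≤ x i
  x1 : ∀ i, x i ≤ 1
  y0 : ∀ i, 0 ≤ y i
  y1 : ∀ i, y i ≤ 1

/-- different from the four extreme points -/
structure Oth (L R D U A : ι) : Prop where
  L : A ≠ L
  R : A ≠ R
  D : A ≠ D
  U : A ≠ U

theorem case21 (N : Norm x y L R D U) (h1 : x D ≤ y L) (h2 : y L ≤ 1 / 2) {A B C : ι}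
    (oA : Oth L R D U A) (oB : Oth L R D U B) (oC : Oth L R D U C) (AB : A ≠ B) (AC : A ≠ C)
    (BC : B ≠ C) (xA : x D < x A) (yA : y L < y A) (xAB : x A < x B) (yAB : y A < y B)
    (xC : x D < x C) (yC : y C < y L) : False := by
  obtain ⟨H, F, hL, hD, x0, x1, y0, y1⟩ := N
  have yC0 := y0 C
  have hU : y U = 1 := by have := F.yUD; linarith
  have hR : x R = 1 := by have := F.xRL; linarith
  have yR : y R = y L := F.yRL
  have xU : x U = x D := F.xUD
  have LD : L ≠ D := fun h => by rw [h] at yC; linarith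
  have LR : L ≠ R := fun h => by rw [h] at hL; linarith
  have LU : L ≠ U := fun h => by rw [h] at h2; linarith
  have RD : R ≠ D := fun h => by rw [← h] at h1; linarith
  have RU : R ≠ U := fun h => by rw [h] at yR; linarith
  have DU : D ≠ U := fun h => by rw [h] at hD; linarith
  have hxi : 0 < x D := by
    have := l1Dec H F (k := D) (l := L) LD.symm (by rw [hL]; linarith [x0 D]) (by linarith)
    linarith
  have xAC : x A < x C := by
    by_contra hcon
    exact chainInc H F (a := D) (b := C) (c := A) (d := B) oC.D AC AB.symm xC.le (by linarith)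
      xAB.le (by linarith) (by linarith) yAB.le (by linarith [x1 B]) (by linarith [y1 B])
  have hr := rule_lbl H F hL hD (lbl_inj LR LD LU RD RU DU oA.L oA.R oA.D oA.U oB.L oB.R oB.D oB.U
    oC.L oC.R oC.D oC.U AB AC BC)
  rcases le_total (x C) (x B) with h | h
  · exact t21a _ _ _ _ _ _ _ _ hr (by linarith) (by linarith) (by linarith) (by linarith)
      (by linarith [x1 B]) (by linarith) (by linarith) (by linarith) (by linarith)
      (by linarith [y1 B]) (by linarith) (by linarith) (by linarith)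
  · exact t21b _ _ _ _ _ _ _ _ hr (by linarith) (by linarith) (by linarith) (by linarith)
      (by linarith [x1 C]) (by linarith) (by linarith) (by linarith) (by linarith)
      (by linarith [y1 B]) (by linarith) (by linarith) (by linarith)

theorem case12 (N : Norm x y L R D U) (h1 : x D ≤ y L) (h2 : y L ≤ 1 / 2) {A B C : ι}
    (oA : Oth L R D U A) (oB : Oth L R D U B) (oC : Oth L R D U C) (AB : A ≠ B) (AC : A ≠ C)
    (BC : B ≠ C) (xA : x D < x A) (yA : y L < y A) (xB : x D < x B) (xBC : x B < x C)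
    (yBC : y C < y B) (yB : y B < y L) : False := by
  obtain ⟨H, F, hL, hD, x0, x1, y0, y1⟩ := N
  have yC0 := y0 C
  have hU : y U = 1 := by have := F.yUD; linarith
  have hR : x R = 1 := by have := F.xRL; linarith
  have yR : y R = y L := F.yRL
  have xU : x U = x D := F.xUD
  have LD : L ≠ D := fun h => by rw [h] at yB; linarith
  have LR : L ≠ R := fun h => by rw [h] at hL; linarith
  have LU : L ≠ U := fun h => by rw [h] at h2; linarith
  have RD : R ≠ D := fun h => by rw [← h] at h1; linarith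
  have RU : R ≠ U := fun h => by rw [h] at yR; linarith
  have DU : D ≠ U := fun h => by rw [h] at hD; linarith
  have hxi : 0 < x D := by
    have := l1Dec H F (k := D) (l := L) LD.symm (by rw [hL]; linarith [x0 D]) (by linarith)
    linarith
  have xAB : x B < x A := by
    by_contra hcon
    exact chainDec H F (a := U) (b := A) (c := B) (d := C) oA.U AB.symm BC.symm (by linarith)
      (by linarith) xBC.le (by linarith [y1 A]) (by linarith) yBC.le (by linarith [x1 C])
      (by linarith)
  have hr := rule_lbl H F hL hD (lbl_inj LR LD LU RD RU DU oA.L oA.R oA.D oA.U oB.L oB.R oB.D oB.U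
    oC.L oC.R oC.D oC.U AB AC BC)
  rcases le_total (x A) (x C) with h | h
  · exact t12a _ _ _ _ _ _ _ _ hr (by linarith) (by linarith) (by linarith) (by linarith)
      (by linarith [x1 C]) (by linarith) (by linarith) (by linarith) (by linarith)
      (by linarith [y1 A]) (by linarith) (by linarith) (by linarith)
  · exact t12b _ _ _ _ _ _ _ _ hr (by linarith) (by linarith) (by linarith) (by linarith)
      (by linarith [x1 A]) (by linarith) (by linarith) (by linarith) (by linarith)
      (by linarith [y1 A]) (by linarith) (by linarith) (by linarith)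

/-- a further point is to the right of the vertical chord and not on the horizontal one -/
theorem position (N : Norm x y L R D U) (h1 : x D ≤ y L) (h2 : y L ≤ 1 / 2) {q : ι}
    (o : Oth L R D U q) : x D < x q ∧ y q ≠ y L := by
  obtain ⟨H, F, hL, hD, x0, x1, y0, y1⟩ := N
  have hU : y U = 1 := by have := F.yUD; linarith
  have hR : x R = 1 := by have := F.xRL; linarith
  have yR : y R = y L := F.yRL
  have xU : x U = x D := F.xUD
  have hq := x0 q
  constructor
  · by_contra hcon
    rw [not_lt] at hcon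
    rcases le_total (y q) (y L) with h | h
    · have := l1Dec H F (k := q) (l := L) o.L (by linarith) (by linarith)
      have := l1Dec H F (k := D) (l := q) o.D.symm (by linarith) (by linarith [y0 q])
      linarith
    · have := l1Inc H F (k := q) (l := L) o.L (by linarith) (by linarith)
      have := l1Inc H F (k := U) (l := q) o.U.symm (by linarith) (by linarith [y1 q])
      linarith
  · intro hcon
    have := l1Inc H F (k := q) (l := L) o.L (by linarith) (by linarith)
    have := l1Inc H F (k := R) (l := q) o.R.symm (by linarith [x1 q]) (by linarith)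
    linarith

/-- two further points above the horizontal chord are in increasing position -/
theorem incNE (N : Norm x y L R D U) {p q : ι} (op : Oth L R D U p) (oq : Oth L R D U q)
    (hpq : p ≠ q) (p1 : x D < x p) (p2 : y L < y p) (q1 : x D < x q) (q2 : y L < y q) :
    (x p < x q ∧ y p < y q) ∨ (x q < x p ∧ y q < y p) := by
  obtain ⟨H, F, hL, hD, x0, x1, y0, y1⟩ := N
  have hU : y U = 1 := by have := F.yUD; linarith
  have hR : x R = 1 := by have := F.xRL; linarith
  have yR : y R = y L := F.yRL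
  have xU : x U = x D := F.xUD
  have key : ∀ a b : ι, Oth L R D U a → Oth L R D U b → a ≠ b → x D < x a → y L < y a →
      x D < x b → y L < y b → x a ≤ x b → y a < y b := by
    intro a b oa ob hab a1 a2 b1 b2 h
    by_contra hcon
    exact chainDec H F (a := U) (b := a) (c := b) (d := R) oa.U hab.symm ob.R.symm (by linarith) h
      (by linarith [x1 b]) (by linarith [y1 a]) (by linarith) (by linarith)
      (by linarith [x0 D]) (by linarith [y0 L])
  rcases lt_trichotomy (x p) (x q) with h | h | h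
  · exact Or.inl ⟨h, key p q op oq hpq p1 p2 q1 q2 h.le⟩
  · have h3 := key p q op oq hpq p1 p2 q1 q2 h.le
    have h4 := key q p oq op hpq.symm q1 q2 p1 p2 h.ge
    linarith
  · exact Or.inr ⟨h, key q p oq op hpq.symm q1 q2 p1 p2 h.le⟩

/-- two further points below the horizontal chord are in decreasing position -/
theorem decSE (N : Norm x y L R D U) {p q : ι} (op : Oth L R D U p) (oq : Oth L R D U q)
    (hpq : p ≠ q) (p1 : x D < x p) (p2 : y p < y L) (q1 : x D < x q) (q2 : y q < y L) :
    (x p < x q ∧ y q < y p) ∨ (x q < x p ∧ y p < y q) := by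
  obtain ⟨H, F, hL, hD, x0, x1, y0, y1⟩ := N
  have hU : y U = 1 := by have := F.yUD; linarith
  have hR : x R = 1 := by have := F.xRL; linarith
  have yR : y R = y L := F.yRL
  have xU : x U = x D := F.xUD
  have key : ∀ a b : ι, Oth L R D U a → Oth L R D U b → a ≠ b → x D < x a → y a < y L →
      x D < x b → y b < y L → x a ≤ x b → y b < y a := by
    intro a b oa ob hab a1 a2 b1 b2 h
    by_contra hcon
    exact chainInc H F (a := D) (b := a) (c := b) (d := R) oa.D hab.symm ob.R.symm (by linarith) h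
      (by linarith [x1 b]) (by linarith [y0 a]) (by linarith) (by linarith)
      (by linarith [x0 D]) (by linarith [y1 L])
  rcases lt_trichotomy (x p) (x q) with h | h | h
  · exact Or.inl ⟨h, key p q op oq hpq p1 p2 q1 q2 h.le⟩
  · have h3 := key p q op oq hpq p1 p2 q1 q2 h.le
    have h4 := key q p oq op hpq.symm q1 q2 p1 p2 h.ge
    linarith
  · exact Or.inr ⟨h, key q p oq op hpq.symm q1 q2 p1 p2 h.le⟩

theorem no3NE (N : Norm x y L R D U) {a b c : ι} (oa : Oth L R D U a) (ab : a ≠ b) (bc : b ≠ c)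
    (a1 : x D < x a) (a2 : y L < y a) (h1 : x a < x b) (h2 : x b < x c) (h3 : y a < y b)
    (h4 : y b < y c) : False := by
  obtain ⟨H, F, hL, hD, x0, x1, y0, y1⟩ := N
  exact chainInc H F (a := L) (b := a) (c := b) (d := c) oa.L ab.symm bc.symm
    (by linarith [x0 a]) h1.le h2.le a2.le h3.le h4.le (by linarith [x1 c])
    (by linarith [y1 c, y0 L])

theorem no3SE (N : Norm x y L R D U) {a b c : ι} (oa : Oth L R D U a) (ab : a ≠ b) (bc : b ≠ c)
    (a1 : x D < x a) (a2 : y a < y L) (h1 : x a < x b) (h2 : x b < x c) (h3 : y b < y a)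
    (h4 : y c < y b) : False := by
  obtain ⟨H, F, hL, hD, x0, x1, y0, y1⟩ := N
  exact chainDec H F (a := L) (b := a) (c := b) (d := c) oa.L ab.symm bc.symm
    (by linarith [x0 a]) h1.le h2.le a2.le h3.le h4.le (by linarith [x1 c])
    (by linarith [y0 c, y1 L])

theorem norm_false (N : Norm x y L R D U) (h1 : x D ≤ y L) (h2 : y L ≤ 1 / 2) {a b c : ι}
    (oa : Oth L R D U a) (ob : Oth L R D U b) (oc : Oth L R D U c) (ab : a ≠ b) (ac : a ≠ c)
    (bc : b ≠ c) : False := by
  obtain ⟨xa, ya⟩ := position N h1 h2 oa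
  obtain ⟨xb, yb⟩ := position N h1 h2 ob
  obtain ⟨xc, yc⟩ := position N h1 h2 oc
  -- two above, one below
  have k21 : ∀ p q r : ι, Oth L R D U p → Oth L R D U q → Oth L R D U r → p ≠ q → p ≠ r →
      q ≠ r → x D < x p → x D < x q → x D < x r → y L < y p → y L < y q → y r < y L → False := by
    intro p q r op oq or pq pr qr xp xq xr yp yq yr
    rcases incNE N op oq pq xp yp xq yq with h | h
    · exact case21 N h1 h2 op oq or pq pr qr xp yp h.1 h.2 xr yr
    · exact case21 N h1 h2 oq op or pq.symm qr pr xq yq h.1 h.2 xr yr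
  have k12 : ∀ p q r : ι, Oth L R D U p → Oth L R D U q → Oth L R D U r → p ≠ q → p ≠ r →
      q ≠ r → x D < x p → x D < x q → x D < x r → y L < y p → y q < y L → y r < y L → False := by
    intro p q r op oq or pq pr qr xp xq xr yp yq yr
    rcases decSE N oq or qr xq yq xr yr with h | h
    · exact case12 N h1 h2 op oq or pq pr qr xp yp xq h.1 h.2 yq
    · exact case12 N h1 h2 op or oq pr pq qr.symm xp yp xr h.1 h.2 yr
  rcases lt_or_gt_of_ne ya with ya | ya <;> rcases lt_or_gt_of_ne yb with yb | yb <;>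
    rcases lt_or_gt_of_ne yc with yc | yc
  · -- all below
    rcases decSE N oa ob ab xa ya xb yb with h | h <;>
    rcases decSE N ob oc bc xb yb xc yc with h' | h' <;>
    rcases decSE N oa oc ac xa ya xc yc with h'' | h''
    · exact no3SE N oa ab bc xa ya h.1 h'.1 h.2 h'.2
    · linarith [h.1, h'.1, h''.1]
    · exact no3SE N oa ac bc.symm xa ya h''.1 h'.1 h''.2 h'.2
    · exact no3SE N oc ac.symm ab xc yc h''.1 h.1 h''.2 h.2
    · exact no3SE N ob ab.symm ac xb yb h.1 h''.1 h.2 h''.2
    · exact no3SE N ob bc ac.symm xb yb h'.1 h''.1 h'.2 h''.2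
    · linarith [h.1, h'.1, h''.1]
    · exact no3SE N oc bc.symm ab.symm xc yc h'.1 h.1 h'.2 h.2
  · exact k12 c a b oc oa ob ac.symm bc.symm ab xc xa xb yc ya yb
  · exact k12 b a c ob oa oc ab.symm bc ac xb xa xc yb ya yc
  · exact k21 b c a ob oc oa bc ab.symm ac.symm xb xc xa yb yc ya
  · exact k12 a b c oa ob oc ab ac bc xa xb xc ya yb yc
  · exact k21 a c b oa oc ob ac ab bc.symm xa xc xb ya yc yb
  · exact k21 a b c oa ob oc ab ac bc xa xb xc ya yb yc
  · -- all above
    rcases incNE N oa ob ab xa ya xb yb with h | h <;>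
    rcases incNE N ob oc bc xb yb xc yc with h' | h' <;>
    rcases incNE N oa oc ac xa ya xc yc with h'' | h''
    · exact no3NE N oa ab bc xa ya h.1 h'.1 h.2 h'.2
    · linarith [h.1, h'.1, h''.1]
    · exact no3NE N oa ac bc.symm xa ya h''.1 h'.1 h''.2 h'.2
    · exact no3NE N oc ac.symm ab xc yc h''.1 h.1 h''.2 h.2
    · exact no3NE N ob ab.symm ac xb yb h.1 h''.1 h.2 h''.2
    · exact no3NE N ob bc ac.symm xb yb h'.1 h''.1 h'.2 h''.2
    · linarith [h.1, h'.1, h''.1]
    · exact no3NE N oc bc.symm ab.symm xc yc h'.1 h.1 h'.2 h.2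

theorem Norm.negX (N : Norm x y L R D U) : Norm (fun i => 1 - x i) y R L D U :=
  ⟨N.H.negX, N.F.negX, by have := N.F.xRL; have := N.xL; show 1 - x R = 0; linarith, N.yD,
    fun i => by have := N.x1 i; show 0 ≤ 1 - x i; linarith,
    fun i => by have := N.x0 i; show 1 - x i ≤ 1; linarith, N.y0, N.y1⟩

theorem Norm.swap (N : Norm x y L R D U) : Norm y x D U L R :=
  ⟨N.H.swap, N.F.swap, N.yD, N.xL, N.y0, N.y1, N.x0, N.x1⟩

theorem Oth.negX {a : ι} (o : Oth L R D U a) : Oth R L D U a := ⟨o.R, o.L, o.D, o.U⟩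

theorem Oth.swap {a : ι} (o : Oth L R D U a) : Oth D U L R a := ⟨o.D, o.U, o.L, o.R⟩

theorem false1 (N : Norm x y L R D U) (h1 : x D ≤ 1 / 2) (h2 : y L ≤ 1 / 2) {a b c : ι}
    (oa : Oth L R D U a) (ob : Oth L R D U b) (oc : Oth L R D U c) (ab : a ≠ b) (ac : a ≠ c)
    (bc : b ≠ c) : False := by
  rcases le_total (x D) (y L) with h | h
  · exact norm_false N h h2 oa ob oc ab ac bc
  · exact norm_false N.swap h h1 oa.swap ob.swap oc.swap ab ac bc

theorem false2 (N : Norm x y L R D U) (h2 : y L ≤ 1 / 2) {a b c : ι}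
    (oa : Oth L R D U a) (ob : Oth L R D U b) (oc : Oth L R D U c) (ab : a ≠ b) (ac : a ≠ c)
    (bc : b ≠ c) : False := by
  rcases le_total (x D) (1 / 2) with h | h
  · exact false1 N h h2 oa ob oc ab ac bc
  · have hR : y R = y L := N.F.yRL
    exact false1 N.negX (show 1 - x D ≤ 1 / 2 by linarith) (by rw [hR]; exact h2)
      oa.negX ob.negX oc.negX ab ac bc

theorem false3 (N : Norm x y L R D U) {a b c : ι}
    (oa : Oth L R D U a) (ob : Oth L R D U b) (oc : Oth L R D U c) (ab : a ≠ b) (ac : a ≠ c)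
    (bc : b ≠ c) : False := by
  rcases le_total (y L) (1 / 2) with h | h
  · exact false2 N h oa ob oc ab ac bc
  · have hU : x U = x D := N.F.xUD
    refine false2 N.swap.negX.swap (R := R) ?_ oa.swap.negX.swap ob.swap.negX.swap
      oc.swap.negX.swap ab ac bc
    show 1 - y L ≤ 1 / 2
    linarith

end

theorem core {x y : Fin 7 → ℝ} {L R D U : Fin 7} (N : Norm x y L R D U) : False := by
  have hcard : 3 ≤ (Finset.univ \ {L, R, D, U} : Finset (Fin 7)).card := by
    have h1 : ({L, R, D, U} : Finset (Fin 7)).card ≤ 4 := Finset.card_le_four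
    have h2 := Finset.le_card_sdiff ({L, R, D, U} : Finset (Fin 7)) Finset.univ
    rw [Finset.card_univ, Fintype.card_fin] at h2
    omega
  obtain ⟨t, ht, ht3⟩ := Finset.exists_subset_card_eq hcard
  obtain ⟨a, b, c, ab, ac, bc, rfl⟩ := Finset.card_eq_three.mp ht3
  have ho : ∀ q ∈ ({a, b, c} : Finset (Fin 7)), Oth L R D U q := by
    intro q hq
    have := ht hq
    simp only [Finset.mem_sdiff, Finset.mem_univ, true_and, Finset.mem_insert,
      Finset.mem_singleton, not_or] at this
    exact ⟨this.1, this.2.1, this.2.2.1, this.2.2.2⟩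
  exact false3 N (ho a (by simp)) (ho b (by simp)) (ho c (by simp)) ab ac bc

end Run7.h790.SD
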