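import Pool.Agent.Run7.h790.SD.Core

/-!
Seven points in a normed plane: the frame given by a parallelogram of largest area.
-/

set_option autoImplicit false

namespace Run7.h790.SD

variable {E : Type} [NormedAddCommGroup E] [NormedSpace ℝ E]

/-- three collinear points -/
theorem collinear_false {D : ℝ} {u v : E} (hu : D < 2 * ‖u‖) (hv : D < 2 * ‖v‖)
    (huv : D < 2 * ‖v - u‖) (hu' : ‖u‖ ≤ D) (hv' : ‖v‖ ≤ D) (huv' : ‖v - u‖ ≤ D) {t : ℝ}
    (ht : v = t • u) : False := by
  have e1 : ‖v‖ = |t| * ‖u‖ := by rw [ht, norm_smul, Real.norm_eq_abs]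
  have e2 : ‖v - u‖ = |t - 1| * ‖u‖ := by
    rw [ht, show t • u - u = (t - 1) • u by rw [sub_smul, one_smul], norm_smul, Real.norm_eq_abs]
  rw [e1] at hv hv'
  rw [e2] at huv huv'
  rcases le_total 0 t with h | h
  · rcases le_total 1 t with h' | h'
    · rw [abs_of_nonneg h] at hv hv'
      rw [abs_of_nonneg (by linarith : (0:ℝ) ≤ t - 1)] at huv huv'
      linarith
    · rw [abs_of_nonneg h] at hv hv'
      rw [abs_of_nonpos (by linarith : t - 1 ≤ (0:ℝ))] at huv huv'
      linarith
  · rw [abs_of_nonpos h] at hv hv'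
    rw [abs_of_nonpos (by linarith : t - 1 ≤ (0:ℝ))] at huv huv'
    linarith

theorem main (hE : Module.finrank ℝ E = 2) (p : Fin 7 → E) (hp : Function.Injective p) :
    ∃ i j k l : Fin 7, k ≠ l ∧ 2 * dist (p k) (p l) ≤ dist (p i) (p j) := by
  by_contra hcon
  push Not at hcon
  -- the diameter
  obtain ⟨⟨i0, j0⟩, hmax⟩ := Finite.exists_max (fun a : Fin 7 × Fin 7 => dist (p a.1) (p a.2))
  set Dm : ℝ := dist (p i0) (p j0) with hDm
  have hD : ∀ i j, ‖p i - p j‖ ≤ Dm := fun i j => by
    rw [← dist_eq_norm]; exact hmax (i, j)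
  have hd : ∀ k l, k ≠ l → Dm < 2 * ‖p k - p l‖ := fun k l h => by
    rw [← dist_eq_norm]; exact hcon i0 j0 k l h
  have hDpos : 0 < Dm := by
    have := hD 0 1
    have h2 : 0 < ‖p 0 - p 1‖ := norm_pos_iff.mpr (sub_ne_zero.mpr (hp.ne (by decide)))
    linarith
  -- coordinates
  have hfin : Module.Finite ℝ E := Module.finite_of_finrank_pos (by rw [hE]; norm_num)
  let B := Module.finBasisOfFinrankEq ℝ E hE
  let X0 : E →ₗ[ℝ] ℝ := B.coord 0
  let Y0 : E →ₗ[ℝ] ℝ := B.coord 1
  have hext : ∀ u v : E, X0 u = X0 v → Y0 u = Y0 v → u = v := by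
    intro u v h1 h2
    apply B.ext_elem
    intro i
    fin_cases i
    · exact h1
    · exact h2
  let w0 : E → E → ℝ := fun u v => X0 u * Y0 v - Y0 u * X0 v
  -- the largest parallelogram
  obtain ⟨⟨⟨R, L⟩, ⟨U, D⟩⟩, hM⟩ := Finite.exists_max
    (fun a : (Fin 7 × Fin 7) × (Fin 7 × Fin 7) => w0 (p a.1.1 - p a.1.2) (p a.2.1 - p a.2.2))
  set a := p R - p L with ha
  set b := p U - p D with hb
  set M : ℝ := w0 a b with hMdef
  have hM' : ∀ i j k l, w0 (p i - p j) (p k - p l) ≤ M := fun i j k l => hM ((i, j), (k, l))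
  have hanti : ∀ u v, w0 u v = - w0 v u := fun u v => by simp only [w0]; ring
  have hM0 : 0 < M := by
    by_contra hneg
    rw [not_lt] at hneg
    have hz : w0 (p 1 - p 0) (p 2 - p 0) = 0 := by
      have h1 := hM' 1 0 2 0
      have h2 := hM' 2 0 1 0
      rw [hanti] at h2
      linarith
    have hu0 : p 1 - p 0 ≠ 0 := sub_ne_zero.mpr (hp.ne (by decide))
    have hex : ∃ t : ℝ, p 2 - p 0 = t • (p 1 - p 0) := by
      by_cases hx : X0 (p 1 - p 0) = 0
      · have hy : Y0 (p 1 - p 0) ≠ 0 := fun hy => hu0 (hext _ _ (by rw [hx, map_zero])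
          (by rw [hy, map_zero]))
        refine ⟨Y0 (p 2 - p 0) / Y0 (p 1 - p 0), hext _ _ ?_ ?_⟩
        · rw [map_smul, hx, smul_zero]
          have : Y0 (p 1 - p 0) * X0 (p 2 - p 0) = 0 := by
            have h3 : X0 (p 1 - p 0) * Y0 (p 2 - p 0) - Y0 (p 1 - p 0) * X0 (p 2 - p 0) = 0 := hz
            rw [hx] at h3; linarith
          exact (mul_eq_zero.mp this).resolve_left hy
        · rw [map_smul, smul_eq_mul, div_mul_cancel₀ _ hy]
      · refine ⟨X0 (p 2 - p 0) / X0 (p 1 - p 0), hext _ _ ?_ ?_⟩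
        · rw [map_smul, smul_eq_mul, div_mul_cancel₀ _ hx]
        · rw [map_smul, smul_eq_mul]
          have h3 : X0 (p 1 - p 0) * Y0 (p 2 - p 0) - Y0 (p 1 - p 0) * X0 (p 2 - p 0) = 0 := hz
          field_simp
          linarith
    obtain ⟨t, ht⟩ := hex
    have e : p 2 - p 1 = (p 2 - p 0) - (p 1 - p 0) := by abel
    refine collinear_false (D := Dm) (u := p 1 - p 0) (v := p 2 - p 0) (hd 1 0 (by decide))
      (hd 2 0 (by decide)) ?_ (hD 1 0) (hD 2 0) ?_ ht
    · rw [← e]; exact hd 2 1 (by decide)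
    · rw [← e]; exact hD 2 1
  -- the frame
  let X : E → ℝ := fun v => w0 v b / M
  let Y : E → ℝ := fun v => w0 a v / M
  have hXsub : ∀ u v, X (u - v) = X u - X v := fun u v => by
    simp only [X, w0, map_sub]; ring
  have hYsub : ∀ u v, Y (u - v) = Y u - Y v := fun u v => by
    simp only [Y, w0, map_sub]; ring
  have hrep : ∀ v, v = X v • a + Y v • b := by
    intro v
    have hMe : M = X0 a * Y0 b - Y0 a * X0 b := rfl
    apply hext
    · simp only [X, Y, w0, map_add, map_smul, smul_eq_mul]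
      field_simp
      rw [hMe]; ring
    · simp only [X, Y, w0, map_add, map_smul, smul_eq_mul]
      field_simp
      rw [hMe]; ring
  have hXa : X a = 1 := by simp only [X]; rw [← hMdef]; exact div_self hM0.ne'
  have hXb : X b = 0 := by simp only [X, w0]; ring
  have hYa : Y a = 0 := by simp only [Y, w0]; ring
  have hYb : Y b = 1 := by simp only [Y]; rw [← hMdef]; exact div_self hM0.ne'
  have hXle : ∀ i j, X (p i - p j) ≤ 1 := fun i j => by
    simp only [X]; rw [div_le_one hM0]; exact hM' i j U D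
  have hYle : ∀ i j, Y (p i - p j) ≤ 1 := fun i j => by
    simp only [Y]; rw [div_le_one hM0]; exact hM' R L i j
  let x : Fin 7 → ℝ := fun i => X (p i) - X (p L)
  let y : Fin 7 → ℝ := fun i => Y (p i) - Y (p D)
  have hx : ∀ i j, x i - x j = X (p i - p j) := fun i j => by
    rw [hXsub]; simp only [x]; ring
  have hy : ∀ i j, y i - y j = Y (p i - p j) := fun i j => by
    rw [hYsub]; simp only [y]; ring
  have hom : ∀ i j k l, om x y i j k l =
      X (p i - p j) * Y (p k - p l) - Y (p i - p j) * X (p k - p l) := fun i j k l => by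
    simp only [om, hx, hy]
  have hrule : Rule x y := by
    intro k l i j i' j' hkl h1 h2 h3
    rw [hom] at h1 h2 h3 ⊢
    rw [hom, hom]
    generalize hw : p k - p l = w at *
    generalize hu : p i - p j = u at *
    generalize hv : p i' - p j' = v at *
    have hvec : (X u * Y v - Y u * X v) • w =
        (X w * Y v - Y w * X v) • u + (X u * Y w - Y u * X w) • v := by
      have e1 := hrep w
      have e2 := hrep u
      have e3 := hrep v
      generalize X u = xu at *
      generalize Y u = yu at *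
      generalize X v = xv at *
      generalize Y v = yv at *
      generalize X w = xw at *
      generalize Y w = yw at *
      rw [e1, e2, e3]
      module
    have hn : (X u * Y v - Y u * X v) * ‖w‖ ≤
        (X w * Y v - Y w * X v) * ‖u‖ + (X u * Y w - Y u * X w) * ‖v‖ := by
      have := norm_add_le ((X w * Y v - Y w * X v) • u) ((X u * Y w - Y u * X w) • v)
      rw [← hvec, norm_smul, norm_smul, norm_smul, Real.norm_of_nonneg h3.le,
        Real.norm_of_nonneg h2, Real.norm_of_nonneg h1] at this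
      exact this
    have hwn : Dm < 2 * ‖w‖ := by rw [← hw]; exact hd k l hkl
    have hun : ‖u‖ ≤ Dm := by rw [← hu]; exact hD i j
    have hvn : ‖v‖ ≤ Dm := by rw [← hv]; exact hD i' j'
    have m1 := mul_lt_mul_of_pos_left hwn h3
    have m2 := mul_le_mul_of_nonneg_left hun h2
    have m3 := mul_le_mul_of_nonneg_left hvn h1
    have m4 : (X u * Y v - Y u * X v) * Dm <
        2 * ((X w * Y v - Y w * X v) + (X u * Y w - Y u * X w)) * Dm := by linarith
    exact lt_of_mul_lt_mul_right m4 hDpos.le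
  refine core (x := x) (y := y) (L := L) (R := R) (D := D) (U := U)
    ⟨hrule, ⟨?_, ?_, ?_, ?_⟩, by simp [x], by simp [y], ?_, ?_, ?_, ?_⟩
  · rw [hx]; exact hXa
  · have : y R - y L = 0 := by rw [hy]; exact hYa
    linarith
  · have : x U - x D = 0 := by rw [hx]; exact hXb
    linarith
  · rw [hy]; exact hYb
  · intro i
    have h1 := hXle R i
    rw [← hx] at h1
    have h2 : x R - x L = 1 := by rw [hx]; exact hXa
    have h3 : x L = 0 := by simp [x]
    linarith
  · intro i
    have h1 := hXle i L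
    rw [← hx] at h1
    have h3 : x L = 0 := by simp [x]
    linarith
  · intro i
    have h1 := hYle U i
    rw [← hy] at h1
    have h2 : y U - y D = 1 := by rw [hy]; exact hYb
    have h3 : y D = 0 := by simp [y]
    linarith
  · intro i
    have h1 := hYle i D
    rw [← hy] at h1
    have h3 : y D = 0 := by simp [y]
    linarith

end Run7.h790.SD
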