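import Pool.Agent.Run7.h790.SD.Basic

/-! Seven points in a normed plane, case 12a (generated proof: case distinctions on the order of
directions, each case closed by a linear combination). -/

set_option autoImplicit false
set_option linter.all false
set_option maxHeartbeats 4000000

namespace Run7.h790.SD

theorem t12a (xi eta xA xB xC yA yB yC : ℝ)
    (H : Rule (px xi xA xB xC) (py eta yA yB yC))
    (gx0 : 0 < xi - 0)
    (gx1 : 0 < xB - xi)
    (gx2 : 0 < xA - xB)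
    (gx3' : 0 ≤ xC - xA)
    (gx4' : 0 ≤ 1 - xC)
    (gy0' : 0 ≤ yC - 0)
    (gy1 : 0 < yB - yC)
    (gy2 : 0 < eta - yB)
    (gy3 : 0 < yA - eta)
    (gy4' : 0 ≤ 1 - yA)
    (hx' : 0 ≤ 1 / 2 - xi) (hy' : 0 ≤ 1 / 2 - eta) (e' : 0 ≤ eta - xi) : False := by
  have gx0' := gx0.le
  have gx1' := gx1.le
  have gx2' := gx2.le
  have gy1' := gy1.le
  have gy2' := gy2.le
  have gy3' := gy3.le
  have F := frame_p xi xA xB xC eta yA yB yC
  have s_0_0_4 : 0 < (1 - 0) * (yA - 0) - (eta - eta) * (xA - xi) := by linarith only [gy3, gy2, gy1, gy0']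
  have b_0_0_6 : 0 ≤ (1 - 0) * (yC - 0) - (eta - eta) * (xC - xi) := by linarith only [gy0']
  have s_0_0_8 : 0 < (1 - 0) * (yA - yB) - (eta - eta) * (xA - xB) := by linarith only [gy3, gy2]
  have s_0_0_10 : 0 < (1 - 0) * (1 - 0) - (eta - eta) * (xi - xi) := by linarith only [gx4', gx3', gx1, gx2, gx0]
  have s_0_1_10 : 0 < (xi - 0) * (1 - 0) - (1 - eta) * (xi - xi) := by linarith only [gx0]
  have b_0_3_1 : 0 ≤ (1 - xi) * (1 - eta) - (eta - 0) * (xi - 0) := by linarith only [hy', hx']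
  have s_0_3_4 : 0 < (1 - xi) * (yA - 0) - (eta - 0) * (xA - xi) := by linarith only [mul_nonneg gx3' gy0', mul_nonneg gx3' gy3', mul_nonneg gx3' gy2', mul_nonneg gx4' gy2', mul_nonneg gx4' gy1', mul_nonneg gx3' gy1', mul_pos gx2 gy3, mul_nonneg gx4' gy3', mul_nonneg gx4' gy0', mul_pos gx1 gy3]
  have s_0_3_10 : 0 < (1 - xi) * (1 - 0) - (eta - 0) * (xi - xi) := by linarith only [gx4', mul_pos gx1 gy1, mul_pos gx2 gy3, mul_pos gx2 gy2, mul_pos gx2 gy1, mul_pos gx1 gy3, mul_pos gx1 gy2, gx3', mul_nonneg gx2' gy4', mul_nonneg gx1' gy0', mul_nonneg gx2' gy0', mul_nonneg gx1' gy4']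
  have s_0_4_10 : 0 < (xA - xi) * (1 - 0) - (yA - 0) * (xi - xi) := by linarith only [gx1, gx2]
  have s_0_5_10 : 0 < (xB - xi) * (1 - 0) - (yB - 0) * (xi - xi) := by linarith only [gx1]
  have s_0_6_4 : 0 < (xC - xi) * (yA - 0) - (yC - 0) * (xA - xi) := by linarith only [mul_nonneg gx3' gy1', mul_pos gx1 gy1, mul_pos gx2 gy3, mul_pos gx2 gy2, mul_pos gx2 gy1, mul_pos gx1 gy3, mul_pos gx1 gy2, mul_nonneg gx3' gy2', mul_nonneg gx3' gy3', mul_nonneg gx3' gy0']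
  have s_0_6_5 : 0 < (xC - xi) * (yB - 0) - (yC - 0) * (xB - xi) := by linarith only [mul_pos gx1 gy1, mul_pos gx2 gy1, mul_nonneg gx3' gy1', mul_nonneg gx3' gy0', mul_nonneg gx2' gy0']
  have s_0_8_10 : 0 < (xA - xB) * (1 - 0) - (yA - yB) * (xi - xi) := by linarith only [gx2]
  have b_0_9_10 : 0 ≤ (1 - xC) * (1 - 0) - (eta - yC) * (xi - xi) := by linarith only [gx4']
  have s_1_0_5 : 0 < (xi - xi) * (eta - yB) - (1 - 0) * (0 - xB) := by linarith only [gx1, gx0]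
  have s_1_0_8 : 0 < (xi - xi) * (1 - yC) - (1 - 0) * (xi - xC) := by linarith only [gx3', gx1, gx2]
  have s_1_0_10 : 0 < (xi - xi) * (yB - yC) - (1 - 0) * (xB - xC) := by linarith only [mul_pos gx2 gy3, mul_pos gx2 gy2, mul_pos gx2 gy1, gx3', mul_nonneg gx2' gy4', mul_nonneg gx2' gy0']
  have s_1_0_11 : 0 < (xi - xi) * (eta - eta) - (1 - 0) * (0 - 1) := by linarith only [gx4', gx3', gx1, gx2, gx0]
  have s_1_2_11 : 0 < (xA - 1) * (eta - eta) - (yA - eta) * (0 - 1) := by linarith only [gy3]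
  have b_1_4_11 : 0 ≤ (xi - xA) * (eta - eta) - (1 - yA) * (0 - 1) := by linarith only [gy4']
  have s_1_5_11 : 0 < (0 - xB) * (eta - eta) - (eta - yB) * (0 - 1) := by linarith only [gy2]
  have s_1_6_1 : 0 < (xi - xB) * (1 - eta) - (1 - yB) * (xi - 1) := by linarith only [gx4', mul_pos gx2 gy2, mul_pos gx2 gy1, mul_pos gx1 gy2, mul_nonneg gx3' gy2', gx3', mul_nonneg gx3' hy', mul_nonneg gx4' gy2', mul_nonneg gx2' gy0', mul_nonneg gx2' hy', mul_nonneg gx4' hy']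
  have s_1_6_4 : 0 < (xi - xB) * (1 - yA) - (1 - yB) * (xi - xA) := by linarith only [mul_pos gx2 gy3, mul_pos gx2 gy2, mul_pos gx1 gy3, mul_pos gx1 gy2, mul_nonneg gx2' gy4']
  have s_1_6_5 : 0 < (xi - xB) * (eta - yB) - (1 - yB) * (0 - xB) := by linarith only [mul_pos gx0 gy3, mul_pos gx0 gy2, mul_pos gx1 gy3, mul_nonneg gx1' gy4', mul_nonneg gx0' gy4']
  have s_1_8_1 : 0 < (xi - xC) * (1 - eta) - (1 - yC) * (xi - 1) := by linarith only [mul_nonneg gx3' gy1', mul_pos gx1 gy1, mul_pos gx2 gy2, mul_pos gx2 gy1, mul_pos gx1 gy2, mul_nonneg gx3' gy2', mul_nonneg gx4' gy2', mul_nonneg gx4' gy1', gx4', mul_nonneg gx4' hy']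
  have s_1_8_11 : 0 < (xi - xC) * (eta - eta) - (1 - yC) * (0 - 1) := by linarith only [gy3, gy2, gy1, gy4']
  have b_1_9_2 : 0 ≤ (xA - xC) * (yA - eta) - (yA - yC) * (xA - 1) := by linarith only [mul_nonneg gx3' gy2', mul_nonneg gx3' gy1', mul_nonneg gx4' gy3', mul_nonneg gx4' gy2', mul_nonneg gx4' gy1']
  have s_1_10_11 : 0 < (xB - xC) * (eta - eta) - (yB - yC) * (0 - 1) := by linarith only [gy1]
  have m_UBC : (0 < 2 * xB - xi - xC ∧ 0 < 2 * yB - 1 - yC) ∨ (0 < -(2 * xB - xi - xC) ∧ 0 < -(2 * yB - 1 - yC)) := midDec H F (a := Lb.U) (b := Lb.B) (c := Lb.C) (by decide) (by decide) (show xi ≤ xB by linarith) (show xB ≤ xC by linarith) (show yB ≤ 1 by linarith) (show yC ≤ yB by linarith) (show xC - xi ≤ 1 by linarith) (show 1 - yC ≤ 1 by linarith)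
  rcases m_UBC with ⟨mxUBCH, myUBCH⟩ | ⟨mxUBCV, myUBCV⟩
  · have mxUBCH' := mxUBCH.le
    have myUBCH' := myUBCH.le
    linarith only [gy2, gy0', hy', myUBCH]
  · have mxUBCV' := mxUBCV.le
    have myUBCV' := myUBCV.le
    have m_DBR : (0 < 2 * xB - xi - 1 ∧ 0 < -(2 * yB - 0 - eta)) ∨ (0 < -(2 * xB - xi - 1) ∧ 0 < 2 * yB - 0 - eta) := midInc H F (a := Lb.D) (b := Lb.B) (c := Lb.R) (by decide) (by decide) (show xi ≤ xB by linarith) (show xB ≤ 1 by linarith) (show 0 ≤ yB by linarith) (show yB ≤ eta by linarith) (show 1 - xi ≤ 1 by linarith) (show eta - 0 ≤ 1 by linarith)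
    rcases m_DBR with ⟨mxDBRH, myDBRH⟩ | ⟨mxDBRV, myDBRV⟩
    · have mxDBRH' := mxDBRH.le
      have myDBRH' := myDBRH.le
      linarith only [mxUBCV, mxDBRH, gx4']
    · have mxDBRV' := mxDBRV.le
      have myDBRV' := myDBRV.le
      rcases le_total 0 ((1 - xi) * (yB - 0) - (eta - 0) * (xB - xi)) with o_0_3_5 | h_0_3_5
      · skip
        rcases le_total 0 ((1 - xi) * (eta - yC) - (eta - 0) * (1 - xC)) with o_0_3_9 | h_0_3_9
        · skip
          have m_LBC : (0 < 2 * xB - 0 - xC ∧ 0 < 2 * yB - eta - yC) ∨ (0 < -(2 * xB - 0 - xC) ∧ 0 < -(2 * yB - eta - yC)) := midDec H F (a := Lb.L) (b := Lb.B) (c := Lb.C) (by decide) (by decide) (show 0 ≤ xB by linarith) (show xB ≤ xC by linarith) (show yB ≤ eta by linarith) (show yC ≤ yB by linarith) (show xC - 0 ≤ 1 by linarith) (show eta - yC ≤ 1 by linarith)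
          rcases m_LBC with ⟨mxLBCH, myLBCH⟩ | ⟨mxLBCV, myLBCV⟩
          · have mxLBCH' := mxLBCH.le
            have myLBCH' := myLBCH.le
            rcases le_total 0 ((xi - xA) * (1 - yC) - (1 - yA) * (xi - xC)) with o_1_4_8 | h_1_4_8
            · skip
              have r0 : (1 - 0) * (yA - 0) - (eta - eta) * (xA - xi) < 2 * ((xC - xi) * (yA - 0) - (yC - 0) * (xA - xi) + ((1 - 0) * (yC - 0) - (eta - eta) * (xC - xi))) := H Lb.C Lb.D Lb.R Lb.L Lb.A Lb.D (by decide) (b_0_0_6) (s_0_6_4.le) (s_0_0_4)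
              have r1 : (1 - 0) * (1 - 0) - (eta - eta) * (xi - xi) < 2 * ((xA - xB) * (1 - 0) - (yA - yB) * (xi - xi) + ((1 - 0) * (yA - yB) - (eta - eta) * (xA - xB))) := H Lb.A Lb.B Lb.R Lb.L Lb.U Lb.D (by decide) (s_0_0_8.le) (s_0_8_10.le) (s_0_0_10)
              have d_1_4_1_0 : 0 ≤ (xi - xA) * (1 - eta) - (1 - yA) * (xi - 1) := tr1 (by linarith) (by linarith) (by linarith) (o_1_4_8) (s_1_8_1.le)
              have r2 : (xi - xB) * (1 - eta) - (1 - yB) * (xi - 1) < 2 * ((xi - xA) * (1 - eta) - (1 - yA) * (xi - 1) + ((xi - xB) * (1 - yA) - (1 - yB) * (xi - xA))) := H Lb.U Lb.A Lb.U Lb.B Lb.U Lb.R (by decide) (s_1_6_4.le) (d_1_4_1_0) (s_1_6_1)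
              have r3 : (1 - xi) * (1 - 0) - (eta - 0) * (xi - xi) < 2 * ((xB - xi) * (1 - 0) - (yB - 0) * (xi - xi) + ((1 - xi) * (yB - 0) - (eta - 0) * (xB - xi))) := H Lb.B Lb.D Lb.R Lb.D Lb.U Lb.D (by decide) (o_0_3_5) (s_0_5_10.le) (s_0_3_10)
              have r4 : (1 - xi) * (1 - 0) - (eta - 0) * (xi - xi) < 2 * ((1 - xC) * (1 - 0) - (eta - yC) * (xi - xi) + ((1 - xi) * (eta - yC) - (eta - 0) * (1 - xC))) := H Lb.R Lb.C Lb.R Lb.D Lb.U Lb.D (by decide) (o_0_3_9) (b_0_9_10) (s_0_3_10)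
              linarith only [r0, r1, mul_pos mxLBCH myLBCH, mul_pos mxUBCV myLBCH, mul_pos gx2 myLBCH, mul_nonneg mxUBCV' hy', mul_nonneg mxLBCH' gy4', mul_pos gx2 gy2, mul_nonneg gx4' gy2', r2, r3, mul_pos mxLBCH gy2, mul_nonneg gx2' hy', o_1_4_8, r4, mul_nonneg hx' hy', mul_nonneg gx4' gy0', mul_pos gx1 gy3]
            · have o_1_8_4 : 0 ≤ (xi - xC) * (1 - yA) - (1 - yC) * (xi - xA) := by linarith only [h_1_4_8]
              rcases le_total 0 ((xi - xC) * (yB - yC) - (1 - yC) * (xB - xC)) with o_1_8_10 | h_1_8_10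
              · skip
                rcases le_total 0 ((xi - 1) * (eta - yB) - (1 - eta) * (0 - xB)) with o_1_1_5 | h_1_1_5
                · skip
                  rcases le_total 0 ((xA - 1) * (1 - yC) - (yA - eta) * (xi - xC)) with o_1_2_8 | h_1_2_8
                  · skip
                    rcases le_total 0 ((xA - xi) * (eta - yC) - (yA - 0) * (1 - xC)) with o_0_4_9 | h_0_4_9
                    · skip
                      have d_1_9_8_0 : 0 ≤ (xA - xC) * (1 - yC) - (yA - yC) * (xi - xC) := tr1 (by linarith) (by linarith) (by linarith) (b_1_9_2) (o_1_2_8)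
                      have r0 : (xA - xC) * (1 - yC) - (yA - yC) * (xi - xC) ≤ 2 * ((xA - 1) * (1 - yC) - (yA - eta) * (xi - xC) + ((xA - xC) * (yA - eta) - (yA - yC) * (xA - 1))) := H.le Lb.A Lb.R Lb.A Lb.C Lb.U Lb.C (by decide) (b_1_9_2) (o_1_2_8) (d_1_9_8_0)
                      have r1 : (xA - xi) * (1 - 0) - (yA - 0) * (xi - xi) < 2 * ((1 - xC) * (1 - 0) - (eta - yC) * (xi - xi) + ((xA - xi) * (eta - yC) - (yA - 0) * (1 - xC))) := H Lb.R Lb.C Lb.A Lb.D Lb.U Lb.D (by decide) (o_0_4_9) (b_0_9_10) (s_0_4_10)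
                      linarith only [r0, mul_nonneg gx2' gy4', mul_nonneg gx1' gy0', mul_nonneg gx2' gy0', mul_nonneg gx3' gy4', mul_nonneg gx1' gy4', r1]
                    · have o_0_9_4 : 0 ≤ (1 - xC) * (yA - 0) - (eta - yC) * (xA - xi) := by linarith only [h_0_4_9]
                      have r0 : (1 - xi) * (yA - 0) - (eta - 0) * (xA - xi) < 2 * ((1 - xC) * (yA - 0) - (eta - yC) * (xA - xi) + ((1 - xi) * (eta - yC) - (eta - 0) * (1 - xC))) := H Lb.R Lb.C Lb.R Lb.D Lb.A Lb.D (by decide) (o_0_3_9) (o_0_9_4) (s_0_3_4)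
                      linarith only [gx3', r0, mul_nonneg gx3' hy', o_1_2_8, mul_nonneg gx3' gy0', mul_nonneg gx4' gy4', mul_nonneg gx4' gy0']
                  · have o_1_8_2 : 0 ≤ (xi - xC) * (yA - eta) - (1 - yC) * (xA - 1) := by linarith only [h_1_2_8]
                    have r0 : (xi - xC) * (eta - eta) - (1 - yC) * (0 - 1) < 2 * ((xB - xC) * (eta - eta) - (yB - yC) * (0 - 1) + ((xi - xC) * (yB - yC) - (1 - yC) * (xB - xC))) := H Lb.B Lb.C Lb.U Lb.C Lb.L Lb.R (by decide) (o_1_8_10) (s_1_10_11.le) (s_1_8_11)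
                    have r1 : (xi - xC) * (eta - eta) - (1 - yC) * (0 - 1) < 2 * ((xA - 1) * (eta - eta) - (yA - eta) * (0 - 1) + ((xi - xC) * (yA - eta) - (1 - yC) * (xA - 1))) := H Lb.A Lb.R Lb.U Lb.C Lb.L Lb.R (by decide) (o_1_8_2) (s_1_2_11.le) (s_1_8_11)
                    have d_1_8_5_0 : 0 ≤ (xi - xC) * (eta - yB) - (1 - yC) * (0 - xB) := tr1 (by linarith) (by linarith) (by linarith) (s_1_8_1.le) (o_1_1_5)
                    have r2 : (xi - xC) * (eta - eta) - (1 - yC) * (0 - 1) < 2 * ((0 - xB) * (eta - eta) - (eta - yB) * (0 - 1) + ((xi - xC) * (eta - yB) - (1 - yC) * (0 - xB))) := H Lb.L Lb.B Lb.U Lb.C Lb.L Lb.R (by decide) (d_1_8_5_0) (s_1_5_11.le) (s_1_8_11)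
                    have r3 : (xi - xC) * (eta - eta) - (1 - yC) * (0 - 1) < 2 * ((xi - xA) * (eta - eta) - (1 - yA) * (0 - 1) + ((xi - xC) * (1 - yA) - (1 - yC) * (xi - xA))) := H Lb.U Lb.A Lb.U Lb.C Lb.L Lb.R (by decide) (o_1_8_4) (b_1_4_11) (s_1_8_11)
                    linarith only [r0, r1, r2, r3]
                · have o_1_5_1 : 0 ≤ (0 - xB) * (1 - eta) - (eta - yB) * (xi - 1) := by linarith only [h_1_1_5]
                  have r0 : (xi - xB) * (1 - eta) - (1 - yB) * (xi - 1) < 2 * ((0 - xB) * (1 - eta) - (eta - yB) * (xi - 1) + ((xi - xB) * (eta - yB) - (1 - yB) * (0 - xB))) := H Lb.L Lb.B Lb.U Lb.B Lb.U Lb.R (by decide) (s_1_6_5.le) (o_1_5_1) (s_1_6_1)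
                  linarith only [mul_pos gx0 myDBRV, hy', mul_pos gx1 myDBRV, mul_pos mxDBRV myDBRV, r0, o_1_5_1]
              · have o_1_10_8 : 0 ≤ (xB - xC) * (1 - yC) - (yB - yC) * (xi - xC) := by linarith only [h_1_8_10]
                have r0 : (xi - xi) * (1 - yC) - (1 - 0) * (xi - xC) < 2 * ((xB - xC) * (1 - yC) - (yB - yC) * (xi - xC) + ((xi - xi) * (yB - yC) - (1 - 0) * (xB - xC))) := H Lb.B Lb.C Lb.U Lb.D Lb.U Lb.C (by decide) (s_1_0_10.le) (o_1_10_8) (s_1_0_8)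
                linarith only [mul_pos gx2 gy2, mul_nonneg gx1' hy', mul_pos gx1 gy2, mul_nonneg gx2' hy', r0, mul_nonneg gx3' gy2', mul_nonneg gx3' hy', mul_nonneg gx1' gy0']
          · have mxLBCV' := mxLBCV.le
            have myLBCV' := myLBCV.le
            have r0 : (1 - xi) * (1 - 0) - (eta - 0) * (xi - xi) < 2 * ((xB - xi) * (1 - 0) - (yB - 0) * (xi - xi) + ((1 - xi) * (yB - 0) - (eta - 0) * (xB - xi))) := H Lb.B Lb.D Lb.R Lb.D Lb.U Lb.D (by decide) (o_0_3_5) (s_0_5_10.le) (s_0_3_10)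
            have r1 : (1 - xi) * (1 - 0) - (eta - 0) * (xi - xi) < 2 * ((xi - 0) * (1 - 0) - (1 - eta) * (xi - xi) + ((1 - xi) * (1 - eta) - (eta - 0) * (xi - 0))) := H Lb.U Lb.L Lb.R Lb.D Lb.U Lb.D (by decide) (b_0_3_1) (s_0_1_10.le) (s_0_3_10)
            have r2 : (1 - xi) * (1 - 0) - (eta - 0) * (xi - xi) < 2 * ((1 - xC) * (1 - 0) - (eta - yC) * (xi - xi) + ((1 - xi) * (eta - yC) - (eta - 0) * (1 - xC))) := H Lb.R Lb.C Lb.R Lb.D Lb.U Lb.D (by decide) (o_0_3_9) (b_0_9_10) (s_0_3_10)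
            linarith only [mul_pos gx1 myLBCV, mul_pos mxLBCV myLBCV, r0, mul_pos mxLBCV gy3, mul_nonneg mxLBCV' gy4', mul_nonneg gx4' myLBCV', r1, r2, mul_pos gx0 myLBCV]
        · have o_0_9_3 : 0 ≤ (1 - xC) * (eta - 0) - (eta - yC) * (1 - xi) := by linarith only [h_0_3_9]
          have d_0_9_1_0 : 0 ≤ (1 - xC) * (1 - eta) - (eta - yC) * (xi - 0) := tr0 (by linarith) (by linarith) (by linarith) (o_0_9_3) (b_0_3_1)
          have r0 : (xi - xi) * (eta - eta) - (1 - 0) * (0 - 1) < 2 * ((0 - xB) * (eta - eta) - (eta - yB) * (0 - 1) + ((xi - xi) * (eta - yB) - (1 - 0) * (0 - xB))) := H Lb.L Lb.B Lb.U Lb.D Lb.L Lb.R (by decide) (s_1_0_5.le) (s_1_5_11.le) (s_1_0_11)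
          have r1 : (xi - xi) * (eta - eta) - (1 - 0) * (0 - 1) < 2 * ((xB - xC) * (eta - eta) - (yB - yC) * (0 - 1) + ((xi - xi) * (yB - yC) - (1 - 0) * (xB - xC))) := H Lb.B Lb.C Lb.U Lb.D Lb.L Lb.R (by decide) (s_1_0_10.le) (s_1_10_11.le) (s_1_0_11)
          linarith only [d_0_9_1_0, r0, o_0_9_3, r1]
      · have o_0_5_3 : 0 ≤ (xB - xi) * (eta - 0) - (yB - 0) * (1 - xi) := by linarith only [h_0_3_5]
        have d_0_6_3_0 : 0 ≤ (xC - xi) * (eta - 0) - (yC - 0) * (1 - xi) := tr0 (by linarith) (by linarith) (by linarith) (s_0_6_5.le) (o_0_5_3)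
        have r0 : (xC - xi) * (eta - 0) - (yC - 0) * (1 - xi) ≤ 2 * ((xB - xi) * (eta - 0) - (yB - 0) * (1 - xi) + ((xC - xi) * (yB - 0) - (yC - 0) * (xB - xi))) := H.le Lb.B Lb.D Lb.C Lb.D Lb.R Lb.D (by decide) (s_0_6_5.le) (o_0_5_3) (d_0_6_3_0)
        linarith only [mul_nonneg gx4' gy1', mul_pos mxUBCV gy2, mul_pos mxUBCV gy1, r0, mul_nonneg gx4' gy0']

end Run7.h790.SD
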